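import Pool.Agent.H817.SV.Sl2

/-!
Homomorphisms to `SL(2, ℝ)`: two independent hyperbolic elements or metabelian.
-/

set_option autoImplicit false

open scoped commutatorElement

namespace Pool.Agent.H817.SV

/-- the two elements are hyperbolic without common eigenlines -/
def Indep (A B : SL2) : Prop :=
  ∃ (r s : ℝ × ℝ) (l : ℝ) (r' s' : ℝ × ℝ) (l' : ℝ), HM A r s l ∧ HM B r' s' l' ∧
    cr r r' ≠ 0 ∧ cr r s' ≠ 0 ∧ cr s r' ≠ 0 ∧ cr s s' ≠ 0

/-- hyperbolic elements without common invariant lines -/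
theorem indep_of_lines {A B : SL2} (hA : 2 < |tc A|) (hB : 2 < |tc B|)
    (h : ∀ v : ℝ × ℝ, v ≠ 0 → cr (act A v) v = 0 → cr (act B v) v = 0 → False) : Indep A B := by
  obtain ⟨r, s, l, h1⟩ := exists_hm A hA
  obtain ⟨r', s', l', h2⟩ := exists_hm B hB
  have er : cr (act A r) r = 0 := by rw [h1.er, cr_smul_left, cr_self, mul_zero]
  have es : cr (act A s) s = 0 := by rw [h1.es, cr_smul_left, cr_self, mul_zero]
  have er' : cr (act B r') r' = 0 := by rw [h2.er, cr_smul_left, cr_self, mul_zero]
  have es' : cr (act B s') s' = 0 := by rw [h2.es, cr_smul_left, cr_self, mul_zero]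
  have hr := ne_zero_left h1.ind
  have hs := ne_zero_right h1.ind
  have hr' := ne_zero_left h2.ind
  have hs' := ne_zero_right h2.ind
  have key : ∀ u v : ℝ × ℝ, u ≠ 0 → v ≠ 0 → cr (act A u) u = 0 → cr (act B v) v = 0 →
      cr u v ≠ 0 := by
    intro u v hu hv hAu hBv h0
    obtain ⟨t, rfl⟩ := par hv h0
    apply h (t • v) hu hAu
    rw [act_smul, cr_smul_left, cr_smul_right, hBv, mul_zero, mul_zero]
  exact ⟨r, s, l, r', s', l', h1, h2, key r r' hr hr' er er', key r s' hr hs' er es',
    key s r' hs hr' es er', key s s' hs hs' es es'⟩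

section
variable {N : Type*} [Group N] (M : N →* SL2)

/-- all elements preserve one line -/
theorem solv_of_line {p : ℝ × ℝ} (hp : p ≠ 0) (h : ∀ f : N, cr (act (M f) p) p = 0) :
    ∀ f ∈ derivedSeries N 2, M f = 1 := by
  have h1 : ∀ f : N, ∃ t : ℝ, act (M f) p = t • p := fun f => par hp (h f)
  choose χ hχ using h1
  have hmul : ∀ f g, χ (f * g) = χ f * χ g := by
    intro f g
    have h2 : act (M (f * g)) p = (χ f * χ g) • p := by
      rw [map_mul, act_mul, hχ, act_smul, hχ, smul_smul, mul_comm]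
    rw [hχ] at h2
    have h3 : (χ (f * g) - χ f * χ g) • p = 0 := by rw [sub_smul, h2, sub_self]
    exact sub_eq_zero.1 ((smul_eq_zero.1 h3).resolve_right hp)
  have hone : χ 1 = 1 := by
    have h2 : act (M 1) p = (1 : ℝ) • p := by rw [map_one, act_one, one_smul]
    rw [hχ] at h2
    have h3 : (χ 1 - 1) • p = 0 := by rw [sub_smul, h2, sub_self]
    exact sub_eq_zero.1 ((smul_eq_zero.1 h3).resolve_right hp)
  obtain ⟨D, hD⟩ : ∃ D : Subgroup N, ∀ f, f ∈ D ↔ act (M f) p = p := by
    refine ⟨{ carrier := {f | act (M f) p = p}, mul_mem' := ?_, one_mem' := ?_, inv_mem' := ?_ },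
      fun f => Iff.rfl⟩
    · intro f g hf hg
      show act (M (f * g)) p = p
      rw [map_mul, act_mul, hg, hf]
    · show act (M 1) p = p
      rw [map_one, act_one]
    · intro f hf
      show act (M f⁻¹) p = p
      nth_rewrite 1 [← (show act (M f) p = p from hf)]
      rw [map_inv, act_inv_act]
  have hle : derivedSeries N 1 ≤ D := by
    rw [derivedSeries_one, commutator_def, Subgroup.commutator_le]
    intro a _ b _
    rw [hD, hχ]
    have h2 : χ ⁅a, b⁆ = 1 := by
      have h3 : χ ⁅a, b⁆ * (χ b * χ a) = χ a * χ b := by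
        rw [← hmul, ← hmul, ← hmul, commutatorElement_def]
        congr 1
        group
      have h4 : χ a ≠ 0 := by
        intro h0
        have h5 := hmul a a⁻¹
        rw [mul_inv_cancel, hone, h0, zero_mul] at h5
        exact one_ne_zero h5
      have h5 : χ b ≠ 0 := by
        intro h0
        have h5 := hmul b b⁻¹
        rw [mul_inv_cancel, hone, h0, zero_mul] at h5
        exact one_ne_zero h5
      have h6 : (χ ⁅a, b⁆ - 1) * (χ b * χ a) = 0 := by linear_combination h3
      exact sub_eq_zero.1 ((mul_eq_zero.1 h6).resolve_right (mul_ne_zero h5 h4))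
    rw [h2, one_smul]
  have hker : derivedSeries N 2 ≤ M.ker := by
    rw [derivedSeries_succ, Subgroup.commutator_le]
    intro a ha b hb
    rw [MonoidHom.mem_ker, map_commutatorElement, commutatorElement_eq_one_iff_mul_comm]
    exact comm_of_fix hp ((hD a).1 (hle ha)) ((hD b).1 (hle hb))
  exact fun f hf => hker hf

theorem solv_of_pair {r s : ℝ × ℝ} (hrs : cr r s ≠ 0)
    (h : ∀ f : N, (cr (act (M f) r) r = 0 ∧ cr (act (M f) s) s = 0) ∨
      (cr (act (M f) r) s = 0 ∧ cr (act (M f) s) r = 0)) :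
    ∀ f ∈ derivedSeries N 2, M f = 1 := by
  have hr := ne_zero_left hrs
  have hs := ne_zero_right hrs
  obtain ⟨D, hD⟩ : ∃ D : Subgroup N, ∀ f, f ∈ D ↔
      (∃ t : ℝ, act (M f) r = t • r) ∧ ∃ t : ℝ, act (M f) s = t • s := by
    refine ⟨{ carrier := {f | (∃ t : ℝ, act (M f) r = t • r) ∧ ∃ t : ℝ, act (M f) s = t • s},
              mul_mem' := ?_, one_mem' := ?_, inv_mem' := ?_ }, fun f => Iff.rfl⟩
    · rintro f g ⟨⟨a, ha⟩, b, hb⟩ ⟨⟨c, hc⟩, d, hd⟩
      refine ⟨⟨c * a, ?_⟩, d * b, ?_⟩
      · rw [map_mul, act_mul, hc, act_smul, ha, smul_smul]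
      · rw [map_mul, act_mul, hd, act_smul, hb, smul_smul]
    · refine ⟨⟨1, ?_⟩, 1, ?_⟩
      · rw [map_one, act_one, one_smul]
      · rw [map_one, act_one, one_smul]
    · have key : ∀ (f : N) (v : ℝ × ℝ), v ≠ 0 → (∃ t : ℝ, act (M f) v = t • v) →
          ∃ t : ℝ, act (M f⁻¹) v = t • v := by
        rintro f v hv ⟨t, ht⟩
        have ht0 : t ≠ 0 := by
          rintro rfl
          apply hv
          have h1 := act_inv_act (M f) v
          rw [ht, act_smul, zero_smul] at h1
          exact h1.symm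
        refine ⟨t⁻¹, ?_⟩
        have h1 := act_inv_act (M f) v
        rw [ht, act_smul] at h1
        rw [map_inv]
        nth_rewrite 2 [← h1]
        rw [smul_smul, inv_mul_cancel₀ ht0, one_smul]
      rintro f ⟨h1, h2⟩
      exact ⟨key f r hr h1, key f s hs h2⟩
  -- either diagonal or antidiagonal
  have hcase : ∀ f : N, f ∈ D ∨ ((∃ t : ℝ, act (M f) r = t • s) ∧ ∃ t : ℝ, act (M f) s = t • r) := by
    intro f
    rcases h f with ⟨h1, h2⟩ | ⟨h1, h2⟩
    · exact Or.inl ((hD f).2 ⟨par hr h1, par hs h2⟩)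
    · exact Or.inr ⟨par hs h1, par hr h2⟩
  have hsw : ∀ f g : N, f ∉ D → g ∉ D → f * g ∈ D := by
    intro f g hf hg
    obtain ⟨⟨a, ha⟩, b, hb⟩ := (hcase f).resolve_left hf
    obtain ⟨⟨c, hc⟩, d, hd⟩ := (hcase g).resolve_left hg
    refine (hD _).2 ⟨⟨c * b, ?_⟩, d * a, ?_⟩
    · rw [map_mul, act_mul, hc, act_smul, hb, smul_smul]
    · rw [map_mul, act_mul, hd, act_smul, ha, smul_smul]
  have hle : derivedSeries N 1 ≤ D := by
    rw [derivedSeries_one, commutator_def, Subgroup.commutator_le]
    intro a _ b _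
    rw [commutatorElement_def]
    by_cases ha : a ∈ D <;> by_cases hb : b ∈ D
    · exact D.mul_mem (D.mul_mem (D.mul_mem ha hb) (D.inv_mem ha)) (D.inv_mem hb)
    · have h1 : b * a⁻¹ ∉ D := fun h1 => hb ((D.mul_mem_cancel_right (D.inv_mem ha)).1 h1)
      have h2 : b⁻¹ ∉ D := fun h2 => hb (D.inv_mem_iff.1 h2)
      have h3 := hsw _ _ h1 h2
      rw [show a * b * a⁻¹ * b⁻¹ = a * (b * a⁻¹ * b⁻¹) by group]
      exact D.mul_mem ha h3
    · have h1 : a * b ∉ D := fun h1 => ha ((D.mul_mem_cancel_right hb).1 h1)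
      have h2 : a⁻¹ ∉ D := fun h2 => ha (D.inv_mem_iff.1 h2)
      exact D.mul_mem (hsw _ _ h1 h2) (D.inv_mem hb)
    · have h1 := hsw _ _ ha hb
      have h2 : a⁻¹ ∉ D := fun h2 => ha (D.inv_mem_iff.1 h2)
      have h3 : b⁻¹ ∉ D := fun h2 => hb (D.inv_mem_iff.1 h2)
      have h4 := hsw _ _ h2 h3
      rw [show a * b * a⁻¹ * b⁻¹ = (a * b) * (a⁻¹ * b⁻¹) by group]
      exact D.mul_mem h1 h4
  have hker : derivedSeries N 2 ≤ M.ker := by
    rw [derivedSeries_succ, Subgroup.commutator_le]
    intro a ha b hb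
    rw [MonoidHom.mem_ker, map_commutatorElement, commutatorElement_eq_one_iff_mul_comm]
    obtain ⟨⟨x, hx⟩, y, hy⟩ := (hD a).1 (hle ha)
    obtain ⟨⟨z, hz⟩, w, hw⟩ := (hD b).1 (hle hb)
    refine eq_of_basis hrs ?_ ?_
    · rw [act_mul, act_mul, hz, hx, act_smul, act_smul, hx, hz, smul_smul, smul_smul, mul_comm]
    · rw [act_mul, act_mul, hw, hy, act_smul, act_smul, hy, hw, smul_smul, smul_smul, mul_comm]
  exact fun f hf => hker hf

/-- case of a parabolic element -/
theorem dich_par {u : N} (hu : M u ≠ 1) (htr : tc (M u) = 2) :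
    (∃ f g : N, Indep (M f) (M g)) ∨ ∀ f ∈ derivedSeries N 2, M f = 1 := by
  obtain ⟨p, hp, hup⟩ := exists_eig (M u) 1 (by rw [htr]; norm_num)
  rw [one_smul] at hup
  by_cases hline : ∀ f : N, cr (act (M f) p) p = 0
  · exact Or.inr (solv_of_line M hp hline)
  left
  push Not at hline
  obtain ⟨h, hh⟩ := hline
  obtain ⟨q, hq⟩ : ∃ q, q = act (M h) p := ⟨_, rfl⟩
  rw [← hq] at hh
  have hpq : cr p q ≠ 0 := by rw [cr_swap]; exact neg_ne_zero.2 hh
  obtain ⟨u', hu'⟩ : ∃ u' : N, u' = h * u * h⁻¹ := ⟨_, rfl⟩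
  have hu'q : act (M u') q = q := by
    rw [hu', hq, map_mul, map_mul, map_inv, act_mul, act_mul, act_inv_act, hup]
  have hu'1 : M u' ≠ 1 := by
    intro h1
    apply hu
    rw [hu', map_mul, map_mul, map_inv] at h1
    have h2 : M u = (M h)⁻¹ * (M h * M u * (M h)⁻¹) * M h := by group
    rw [h2, h1]
    group
  -- coordinates
  obtain ⟨a, ha⟩ : ∃ a : ℝ, act (M u) q = q + a • p := by
    have h1 := cramer hpq (act (M u) q)
    have h2 : cr p (act (M u) q) = cr p q := by
      nth_rewrite 1 [← hup]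
      exact cr_act (M u) p q
    rw [h2, div_self hpq, one_smul] at h1
    exact ⟨_, h1.trans (add_comm _ _)⟩
  obtain ⟨b, hb⟩ : ∃ b : ℝ, act (M u') p = p + b • q := by
    have h1 := cramer hpq (act (M u') p)
    have h2 : cr (act (M u') p) q = cr p q := by
      nth_rewrite 1 [← hu'q]
      exact cr_act (M u') p q
    rw [h2, div_self hpq, one_smul] at h1
    exact ⟨_, h1⟩
  have ha0 : a ≠ 0 := by
    rintro rfl
    apply hu
    refine eq_of_basis hpq ?_ ?_
    · rw [hup, act_one]
    · rw [ha, act_one, zero_smul, add_zero]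
  have hb0 : b ≠ 0 := by
    rintro rfl
    apply hu'1
    refine eq_of_basis hpq ?_ ?_
    · rw [hb, act_one, zero_smul, add_zero]
    · rw [hu'q, act_one]
  have hpow : ∀ n : ℕ, act (M (u ^ n)) p = p ∧ act (M (u ^ n)) q = q + (n * a) • p := by
    intro n
    induction n with
    | zero => simp [act_one]
    | succ n ih =>
      rw [pow_succ', map_mul, act_mul, act_mul, ih.1, ih.2, hup, act_add, act_smul, ha, hup]
      refine ⟨rfl, ?_⟩
      rw [add_assoc, ← add_smul]
      congr 2
      push_cast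
      ring
  have hzpow : ∀ n : ℤ, act (M (u ^ n)) p = p ∧ act (M (u ^ n)) q = q + (n * a) • p := by
    intro n
    obtain ⟨m, rfl | rfl⟩ := n.eq_nat_or_neg
    · rw [zpow_natCast]
      exact_mod_cast hpow m
    · rw [zpow_neg, zpow_natCast, map_inv]
      have h1 := hpow m
      have h2 : act (M (u ^ m))⁻¹ p = p := by
        nth_rewrite 1 [← h1.1]
        exact act_inv_act _ _
      refine ⟨h2, ?_⟩
      have h3 : act (M (u ^ m))⁻¹ (act (M (u ^ m)) q) = q := act_inv_act _ _
      rw [h1.2, act_add, act_smul, h2] at h3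
      rw [eq_sub_of_add_eq h3, sub_eq_add_neg, ← neg_smul]
      congr 2
      push_cast
      ring
  -- the products
  have hw : ∀ n : ℤ, act (M (u ^ n * u')) p = (1 + n * a * b) • p + b • q ∧
      act (M (u ^ n * u')) q = (n * a) • p + (1 : ℝ) • q := by
    intro n
    obtain ⟨h1, h2⟩ := hzpow n
    constructor
    · rw [map_mul, act_mul, hb, act_add, act_smul, h1, h2, smul_add, smul_smul, add_smul, one_smul]
      rw [show b * ((n : ℝ) * a) = n * a * b by ring]
      abel
    · rw [map_mul, act_mul, hu'q, h2, one_smul, add_comm]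
  have htc : ∀ n : ℤ, tc (M (u ^ n * u')) = 2 + n * a * b := by
    intro n
    obtain ⟨h1, h2⟩ := hw n
    have h3 : cr (act (M (u ^ n * u')) p) q + cr p (act (M (u ^ n * u')) q) =
        (2 + n * a * b) * cr p q := by
      rw [h1, h2, cr_add_left, cr_add_right, cr_smul_left, cr_smul_left, cr_smul_right,
        cr_smul_right, cr_self, cr_self]
      ring
    have h4 : ∀ A : SL2, cr (act A p) q + cr p (act A q) = tc A * cr p q := by
      intro A
      simp only [cr, act, tc]
      ring
    rw [h4] at h3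
    exact mul_right_cancel₀ hpq h3
  obtain ⟨n1, n2, hne, h1, h2⟩ : ∃ n1 n2 : ℤ, n1 ≠ n2 ∧ 0 < n1 * a * b ∧ 0 < n2 * a * b := by
    rcases lt_or_gt_of_ne (mul_ne_zero ha0 hb0) with h0 | h0
    · refine ⟨-1, -2, by decide, ?_, ?_⟩
      · push_cast
        linarith
      · push_cast
        linarith
    · refine ⟨1, 2, by decide, ?_, ?_⟩
      · push_cast
        linarith
      · push_cast
        linarith
  refine ⟨u ^ n1 * u', u ^ n2 * u', indep_of_lines ?_ ?_ ?_⟩
  · rw [htc, abs_of_pos (by linarith)]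
    linarith
  · rw [htc, abs_of_pos (by linarith)]
    linarith
  · intro v hv e1 e2
    have hv' := cramer hpq v
    obtain ⟨x, hx⟩ : ∃ x, x = cr v q / cr p q := ⟨_, rfl⟩
    obtain ⟨y, hy⟩ : ∃ y, y = cr p v / cr p q := ⟨_, rfl⟩
    rw [← hx, ← hy] at hv'
    have key : ∀ n : ℤ, cr (act (M (u ^ n * u')) v) v = 0 →
        (n * a) * (b * x + y) * y = b * x ^ 2 := by
      intro n hn
      obtain ⟨h3, h4⟩ := hw n
      rw [hv', act_add, act_smul, act_smul, h3, h4] at hn
      simp only [cr_add_left, cr_add_right, cr_smul_left, cr_smul_right, cr_self] at hn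
      rw [cr_swap q p] at hn
      have h5 : ((n * a) * (b * x + y) * y - b * x ^ 2) * cr p q = 0 := by
        linear_combination hn
      exact sub_eq_zero.1 ((mul_eq_zero.1 h5).resolve_right hpq)
    have k1 := key n1 e1
    have k2 := key n2 e2
    have hn12 : ((n1 : ℝ) - n2) ≠ 0 := sub_ne_zero.2 (by exact_mod_cast hne)
    have k3 : ((n1 : ℝ) - n2) * (a * ((b * x + y) * y)) = 0 := by linear_combination k1 - k2
    have k4 := (mul_eq_zero.1 ((mul_eq_zero.1 k3).resolve_left hn12)).resolve_left ha0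
    have k5 : b * x ^ 2 = 0 := by
      rw [← k1, mul_assoc, k4, mul_zero]
    have hx0 : x = 0 := by
      have := (mul_eq_zero.1 k5).resolve_left hb0
      exact pow_eq_zero_iff (two_ne_zero) |>.1 this
    rw [hx0] at k4
    have hy0 : y = 0 := by
      rcases mul_eq_zero.1 k4 with h6 | h6
      · linarith
      · exact h6
    apply hv
    rw [hv', hx0, hy0, zero_smul, zero_smul, add_zero]

/-- case without parabolic elements -/
theorem dich_hyp (hno : ∀ f : N, tc (M f) = 2 → M f = 1) {g : N} (hg : 2 < |tc (M g)|) :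
    (∃ f g : N, Indep (M f) (M g)) ∨ ∀ f ∈ derivedSeries N 2, M f = 1 := by
  by_cases hind : ∃ f g : N, Indep (M f) (M g)
  · exact Or.inl hind
  right
  obtain ⟨r, s, l, h⟩ := exists_hm _ hg
  refine solv_of_pair M h.ind fun f => ?_
  have h' := h.conj (M f)
  -- the conjugate has a common eigenline
  obtain ⟨p, hp, hp1, hp2⟩ : ∃ p : ℝ × ℝ, p ≠ 0 ∧ cr (act (M g) p) p = 0 ∧
      cr (act (M (f * g * f⁻¹)) p) p = 0 := by
    by_contra hcon
    push Not at hcon
    apply hind
    refine ⟨g, f * g * f⁻¹, indep_of_lines hg ?_ fun v hv h1 h2 => hcon v hv h1 h2⟩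
    have h1 : tc (M (f * g * f⁻¹)) = tc (M g) := by
      have h3 : ∀ A : SL2, cr (act A r) s + cr r (act A s) = tc A * cr r s := by
        intro A
        simp only [cr, act, tc]
        ring
      have h4 : ∀ A : SL2, cr (act A (act (M f) r)) (act (M f) s) +
          cr (act (M f) r) (act A (act (M f) s)) = tc A * cr (act (M f) r) (act (M f) s) := by
        intro A
        simp only [cr, act, tc]
        ring
      have h5 := h4 (M (f * g * f⁻¹))
      have h6 := h3 (M g)
      rw [map_mul, map_mul, map_inv, h'.er, h'.es, cr_smul_left, cr_smul_right, cr_act] at h5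
      rw [h.er, h.es, cr_smul_left, cr_smul_right] at h6
      rw [map_mul, map_mul, map_inv]
      exact mul_right_cancel₀ h.ind (h5.symm.trans h6)
    rw [h1]
    exact hg
  obtain ⟨c, hc⟩ : ∃ c, c = ⁅g, f * g * f⁻¹⁆ := ⟨_, rfl⟩
  obtain ⟨x, hx⟩ := par hp hp1
  obtain ⟨y, hy⟩ := par hp hp2
  have hc1 : M c = 1 := by
    apply hno
    apply tc_of_fix hp
    have hx0 : x ≠ 0 := by
      rintro rfl
      apply hp
      have h1 := act_inv_act (M g) p
      rw [hx, act_smul, zero_smul] at h1
      exact h1.symm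
    have hy0 : y ≠ 0 := by
      rintro rfl
      apply hp
      have h1 := act_inv_act (M (f * g * f⁻¹)) p
      rw [hy, act_smul, zero_smul] at h1
      exact h1.symm
    have hxi : act (M g)⁻¹ p = x⁻¹ • p := by
      have h1 := act_inv_act (M g) p
      rw [hx, act_smul] at h1
      nth_rewrite 2 [← h1]
      rw [smul_smul, inv_mul_cancel₀ hx0, one_smul]
    have hyi : act (M (f * g * f⁻¹))⁻¹ p = y⁻¹ • p := by
      have h1 := act_inv_act (M (f * g * f⁻¹)) p
      rw [hy, act_smul] at h1
      nth_rewrite 2 [← h1]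
      rw [smul_smul, inv_mul_cancel₀ hy0, one_smul]
    rw [hc, commutatorElement_def, map_mul, map_mul _ (g * (f * g * f⁻¹)), map_mul _ g, map_inv,
      map_inv, act_mul, act_mul, act_mul, hyi, act_smul, hxi, act_smul, act_smul, act_smul, act_smul,
      hy, act_smul, hx, smul_smul, smul_smul, smul_smul]
    have : y⁻¹ * x⁻¹ * y * x = 1 := by field_simp
    rw [this, one_smul]
  have hcomm : M g * M (f * g * f⁻¹) = M (f * g * f⁻¹) * M g := by
    rw [hc, map_commutatorElement, commutatorElement_eq_one_iff_mul_comm] at hc1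
    exact hc1
  -- so the conjugate preserves the eigenlines
  have hl : ∀ v : ℝ × ℝ, ∀ m : ℝ, act (M g) v = m • v →
      act (M g) (act (M (f * g * f⁻¹)) v) = m • act (M (f * g * f⁻¹)) v := by
    intro v m hv
    rw [← act_mul, hcomm, act_mul, hv, act_smul]
  have hres : ∀ v : ℝ × ℝ, cr (act (M (f * g * f⁻¹)) v) v = 0 →
      cr v (act (M f) r) = 0 ∨ cr v (act (M f) s) = 0 := by
    intro v hv
    rw [map_mul, map_mul, map_inv] at hv
    exact h'.line hv
  have hr1 : cr (act (M (f * g * f⁻¹)) r) r = 0 := by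
    have h1 := hl r l h.er
    have h2 := h.line (v := act (M (f * g * f⁻¹)) r) (by
      rw [h1, cr_smul_left, cr_self, mul_zero])
    rcases h2 with h2 | h2
    · exact h2
    · exfalso
      obtain ⟨t, ht⟩ := par (ne_zero_right h.ind) h2
      have ht0 : t ≠ 0 := by
        rintro rfl
        have h3 := act_inv_act (M (f * g * f⁻¹)) r
        rw [ht, act_smul, zero_smul] at h3
        exact ne_zero_left h.ind h3.symm
      rw [ht, act_smul, h.es, smul_smul, smul_smul] at h1
      have h4 : (t * l⁻¹ - l * t) • s = 0 := by rw [sub_smul, h1, sub_self]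
      rcases smul_eq_zero.1 h4 with h5 | h5
      · have h6 : t * (l⁻¹ - l) = 0 := by linear_combination h5
        have h7 := (mul_eq_zero.1 h6).resolve_left ht0
        exact h.ne (by linarith)
      · exact ne_zero_right h.ind h5
  have hs1 : cr (act (M (f * g * f⁻¹)) s) s = 0 := by
    have h1 := hl s l⁻¹ h.es
    have h2 := h.line (v := act (M (f * g * f⁻¹)) s) (by
      rw [h1, cr_smul_left, cr_self, mul_zero])
    rcases h2 with h2 | h2
    · exfalso
      obtain ⟨t, ht⟩ := par (ne_zero_left h.ind) h2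
      have ht0 : t ≠ 0 := by
        rintro rfl
        have h3 := act_inv_act (M (f * g * f⁻¹)) s
        rw [ht, act_smul, zero_smul] at h3
        exact ne_zero_right h.ind h3.symm
      rw [ht, act_smul, h.er, smul_smul, smul_smul] at h1
      have h4 : (t * l - l⁻¹ * t) • r = 0 := by rw [sub_smul, h1, sub_self]
      rcases smul_eq_zero.1 h4 with h5 | h5
      · have h6 : t * (l - l⁻¹) = 0 := by linear_combination h5
        have h7 := (mul_eq_zero.1 h6).resolve_left ht0
        exact h.ne (by linarith)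
      · exact ne_zero_left h.ind h5
    · exact h2
  have hfr := h'.ind
  rcases hres r hr1 with h1 | h1
  · rcases hres s hs1 with h2 | h2
    · exfalso
      -- both `r` and `s` are parallel to `f r`
      obtain ⟨t1, ht1⟩ := par (ne_zero_left hfr) h1
      obtain ⟨t2, ht2⟩ := par (ne_zero_left hfr) h2
      obtain ⟨w, hw⟩ : ∃ w, w = act (M f) r := ⟨_, rfl⟩
      rw [← hw] at ht1 ht2
      apply h.ind
      rw [ht1, ht2, cr_smul_left, cr_smul_right, cr_self, mul_zero, mul_zero]
    · left
      exact ⟨by rw [cr_swap, h1, neg_zero], by rw [cr_swap, h2, neg_zero]⟩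
  · rcases hres s hs1 with h2 | h2
    · right
      exact ⟨by rw [cr_swap, h2, neg_zero], by rw [cr_swap, h1, neg_zero]⟩
    · exfalso
      obtain ⟨t1, ht1⟩ := par (ne_zero_right hfr) h1
      obtain ⟨t2, ht2⟩ := par (ne_zero_right hfr) h2
      obtain ⟨w, hw⟩ : ∃ w, w = act (M f) s := ⟨_, rfl⟩
      rw [← hw] at ht1 ht2
      apply h.ind
      rw [ht1, ht2, cr_smul_left, cr_smul_right, cr_self, mul_zero, mul_zero]

theorem dichotomy : (∃ f g : N, Indep (M f) (M g)) ∨ ∀ f ∈ derivedSeries N 2, M f = 1 := by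
  by_cases hpar : ∃ u : N, M u ≠ 1 ∧ tc (M u) = 2
  · obtain ⟨u, h1, h2⟩ := hpar
    exact dich_par M h1 h2
  push Not at hpar
  have hno : ∀ f : N, tc (M f) = 2 → M f = 1 := fun f hf => by
    by_contra h
    exact hpar f h hf
  by_cases hhyp : ∃ g : N, 2 < |tc (M g)|
  · obtain ⟨g, hg⟩ := hhyp
    exact dich_hyp M hno hg
  push Not at hhyp
  right
  -- everything commutes
  have hcomm : ∀ f g : N, M f * M g = M g * M f := by
    intro f g
    by_cases h4 : tc (M f) ^ 2 < 4
    · refine comm_of_elliptic h4 ?_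
      have h5 := hhyp (f * g * f⁻¹ * g⁻¹)
      rw [map_mul, map_mul, map_mul, map_inv, map_inv] at h5
      exact (le_abs_self _).trans h5
    · have h5 : tc (M f) = 2 ∨ tc (M f) = -2 := by
        have h6 := hhyp f
        rw [abs_le] at h6
        have h7 : (tc (M f) - 2) * (tc (M f) + 2) = 0 := by
          nlinarith
        rcases mul_eq_zero.1 h7 with h8 | h8
        · left; linarith
        · right; linarith
      rcases h5 with h5 | h5
      · rw [hno f h5, one_mul, mul_one]
      · have h6 : M (f * f) = 1 := by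
          apply hno
          rw [map_mul]
          have hd := dt1 (M f)
          simp only [tc] at h5
          simp only [tc, m00, m11]
          have h7 : ((M f).1 0 0 + (M f).1 1 1) ^ 2 = 4 := by rw [h5]; norm_num
          linear_combination h7 - 2 * hd
        rw [map_mul] at h6
        have hd := dt1 (M f)
        have e00 := congrArg (fun A : SL2 => A.1 0 0) h6
        have e01 := congrArg (fun A : SL2 => A.1 0 1) h6
        have e10 := congrArg (fun A : SL2 => A.1 1 0) h6
        have e11 := congrArg (fun A : SL2 => A.1 1 1) h6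
        simp only [m00, m01, m10, m11, o00, o01, o10, o11] at e00 e01 e10 e11
        simp only [tc] at h5
        have hb : (M f).1 0 1 = 0 := by
          have : (M f).1 0 1 * ((M f).1 0 0 + (M f).1 1 1) = 0 := by linear_combination e01
          rw [h5] at this
          linarith
        have hc : (M f).1 1 0 = 0 := by
          have : (M f).1 1 0 * ((M f).1 0 0 + (M f).1 1 1) = 0 := by linear_combination e10
          rw [h5] at this
          linarith
        have ha : (M f).1 0 0 = (M f).1 1 1 := by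
          rw [hb] at e00 e11
          have h8 : ((M f).1 0 0 - (M f).1 1 1) * ((M f).1 0 0 + (M f).1 1 1) = 0 := by
            linear_combination e00 - e11
          rw [h5] at h8
          linarith
        refine ext2 ?_ ?_ ?_ ?_
        · rw [m00, m00, hb, hc]; ring
        · rw [m01, m01, hb, ha]; ring
        · rw [m10, m10, hc, ha]; ring
        · rw [m11, m11, hb, hc]; ring
  have hker : derivedSeries N 2 ≤ M.ker := by
    rw [derivedSeries_succ, Subgroup.commutator_le]
    intro a ha b hb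
    rw [MonoidHom.mem_ker, map_commutatorElement, commutatorElement_eq_one_iff_mul_comm]
    exact hcomm a b
  exact fun f hf => hker hf

end

end Pool.Agent.H817.SV
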