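import Pool.Agent.H817.RB.Form
import Pool.Agent.H817.SV.Dich

/-!
Proper discontinuity of the holonomy on the developed domain, and derived series.
-/

set_option autoImplicit false

namespace Pool.Agent.H817.SV

open Set Filter Topology Module
open Pool.Agent.W689.Mk
open scoped commutatorElement

section
variable {X Γ E : Type} [TopologicalSpace X] [Group Γ] [MulAction Γ X] [NormedAddCommGroup E]
  [NormedSpace ℝ E] {dev : X → E} {hol : Γ →* (E ≃ᵃ[ℝ] E)}

/-- dynamically related points of the domain -/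
theorem fin_range (D : AffData X Γ E dev hol) (hinj : Function.Injective dev) {x y : X}
    {q : ℕ → E} {γ : ℕ → Γ} (hq : Tendsto q atTop (𝓝 (dev x)))
    (hγ : Tendsto (fun n => hol (γ n) (q n)) atTop (𝓝 (dev y))) : (Set.range γ).Finite := by
  classical
  have hoe : IsOpenEmbedding dev := D.loc.isOpenEmbedding_of_injective hinj
  obtain ⟨s, hs⟩ : ∃ s : ℕ → X, ∀ n, q n ∈ Set.range dev → dev (s n) = q n :=
    ⟨fun n => if h : q n ∈ Set.range dev then h.choose else x, fun n h => by
      simp only [h, dif_pos]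
      exact h.choose_spec⟩
  have hev : ∀ᶠ n in atTop, dev (s n) = q n := by
    filter_upwards [hq.eventually (hoe.isOpen_range.mem_nhds ⟨x, rfl⟩)] with n hn
    exact hs n hn
  have h1 : Tendsto s atTop (𝓝 x) := by
    rw [hoe.isInducing.tendsto_nhds_iff]
    refine hq.congr' ?_
    filter_upwards [hev] with n hn
    exact hn.symm
  have h2 : Tendsto (fun n => γ n • s n) atTop (𝓝 y) := by
    rw [hoe.isInducing.tendsto_nhds_iff]
    refine hγ.congr' ?_
    filter_upwards [hev] with n hn
    show _ = dev (γ n • s n)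
    rw [D.equi, hn]
  have h3 := D.pd _ (h1.isCompact_insert_range.union h2.isCompact_insert_range)
  refine h3.subset ?_
  rintro _ ⟨n, rfl⟩
  exact ⟨s n, Or.inl (mem_insert_of_mem _ ⟨n, rfl⟩), Or.inr (mem_insert_of_mem _ ⟨n, rfl⟩)⟩

/-- the range of a sequence with finite range is not injective -/
theorem exists_eq_of_fin {α : Type*} {u : ℕ → α} (h : (Set.range u).Finite) :
    ∃ m n : ℕ, m < n ∧ u m = u n := by
  by_contra hcon
  push Not at hcon
  have hinj : Function.Injective u := by
    intro a b hab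
    rcases lt_trichotomy a b with h1 | h1 | h1
    · exact absurd hab (hcon a b h1)
    · exact h1
    · exact absurd hab.symm (hcon b a h1)
  exact Set.infinite_range_of_injective hinj h

end

section
variable {G : Type*} [Group G]

theorem ds_map (j m : ℕ) : (derivedSeries (derivedSeries G j) m).map (derivedSeries G j).subtype =
    derivedSeries G (j + m) := by
  induction m with
  | zero =>
    rw [derivedSeries_zero, add_zero, ← MonoidHom.range_eq_map, Subgroup.range_subtype]
  | succ m ih =>
    rw [derivedSeries_succ, Subgroup.map_commutator, ih, ← add_assoc, derivedSeries_succ]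

theorem char_one (c : G →* ℝ) : ∀ γ ∈ derivedSeries G 1, c γ = 1 := by
  have h : derivedSeries G 1 ≤ c.ker := by
    rw [derivedSeries_one, commutator_def, Subgroup.commutator_le]
    intro a _ b _
    rw [MonoidHom.mem_ker, commutatorElement_def, map_mul, map_mul, map_mul]
    have h1 : c a * c a⁻¹ = 1 := by rw [← map_mul, mul_inv_cancel, map_one]
    have h2 : c b * c b⁻¹ = 1 := by rw [← map_mul, mul_inv_cancel, map_one]
    calc c a * c b * c a⁻¹ * c b⁻¹ = (c a * c a⁻¹) * (c b * c b⁻¹) := by ring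
      _ = 1 := by rw [h1, h2, mul_one]
  exact fun γ hγ => h hγ

/-- a subgroup with some derived subgroup in the kernel has solvable image -/
theorem solv_of_ker {K : Type*} [Group K] (f : G →* K) (H : Subgroup G) (m : ℕ)
    (h : ∀ γ ∈ derivedSeries H m, f (γ : G) = 1) : Group.IsSolvable (H.map f) := by
  refine ⟨⟨m, ?_⟩⟩
  rw [← map_derivedSeries_eq (f.subgroupMap_surjective H) m, eq_bot_iff]
  rintro _ ⟨γ, hγ, rfl⟩
  rw [Subgroup.mem_bot]
  exact Subtype.ext (h γ hγ)

theorem exists_rep {V : Type*} [AddCommGroup V] [Module ℝ V] (h2 : finrank ℝ V = 2)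
    (ρ : G →* (V →ₗ[ℝ] V)) (hdet : ∀ γ, LinearMap.det (ρ γ) = 1) :
    ∃ (M : G →* SL2) (φ : V ≃ₗ[ℝ] (ℝ × ℝ)), ∀ γ v, φ (ρ γ v) = act (M γ) (φ v) := by
  have : FiniteDimensional ℝ V := Module.finite_of_finrank_pos (by rw [h2]; norm_num)
  obtain ⟨b⟩ : Nonempty (Basis (Fin 2) ℝ V) := ⟨(finBasisOfFinrankEq ℝ V h2)⟩
  refine ⟨{ toFun := fun γ => ⟨LinearMap.toMatrix b b (ρ γ), by rw [LinearMap.det_toMatrix, hdet]⟩
            map_one' := ?_
            map_mul' := fun γ δ => ?_ },
    b.equivFun.trans (LinearEquiv.finTwoArrow ℝ ℝ), fun γ v => ?_⟩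
  · refine Subtype.ext ?_
    show LinearMap.toMatrix b b (ρ 1) = 1
    rw [map_one, LinearMap.toMatrix_one]
  · refine Subtype.ext ?_
    show LinearMap.toMatrix b b (ρ (γ * δ)) = LinearMap.toMatrix b b (ρ γ) * LinearMap.toMatrix b b (ρ δ)
    rw [map_mul, LinearMap.toMatrix_mul]
  · have h1 : ∀ i, b.repr (ρ γ v) i = ∑ j, LinearMap.toMatrix b b (ρ γ) i j * b.repr v j := by
      intro i
      rw [← LinearMap.toMatrix_mulVec_repr b b (ρ γ) v]
      rfl
    have h0 := h1 0
    have h1 := h1 1
    rw [Fin.sum_univ_two] at h0 h1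
    exact Prod.ext h0 h1

end

end Pool.Agent.H817.SV
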