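import Pool.Agent.H817.SV.Prop

/-!
Independent hyperbolic motions of the planes parallel to a plane do not exist on domain quotients.
-/

set_option autoImplicit false

namespace Pool.Agent.H817.SV

open Set Filter Topology Module
open Pool.Agent.W689.Mk

section
variable {E : Type} [NormedAddCommGroup E] [NormedSpace ℝ E]

/-- the affine map is trivial modulo the plane spanned by `r, s` and hyperbolic on it -/
structure HA (T : E ≃ᵃ[ℝ] E) (r s : E) (l : ℝ) (a b : E → ℝ) : Prop where
  big : 1 < |l|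
  map : ∀ q, T q = q + ((l - 1) * a q) • r + ((l⁻¹ - 1) * b q) • s
  ar : ∀ (q : E) (t u : ℝ), a (q + t • r + u • s) = a q + t
  br : ∀ (q : E) (t u : ℝ), b (q + t • r + u • s) = b q + u

theorem HA.l0 {T : E ≃ᵃ[ℝ] E} {r s : E} {l : ℝ} {a b : E → ℝ} (h : HA T r s l a b) : l ≠ 0 := by
  rintro rfl
  have := h.big
  rw [abs_zero] at this
  linarith

theorem HA.inv {T : E ≃ᵃ[ℝ] E} {r s : E} {l : ℝ} {a b : E → ℝ} (h : HA T r s l a b) :
    HA T⁻¹ s r l b a := by
  refine ⟨h.big, fun q => ?_, fun q t u => ?_, fun q t u => ?_⟩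
  · have h1 : T (q + ((l⁻¹ - 1) * a q) • r + ((l - 1) * b q) • s) = q := by
      rw [h.map, h.ar, h.br]
      have e1 : (l⁻¹ - 1) * a q + (l - 1) * (a q + (l⁻¹ - 1) * a q) = 0 := by
        have := mul_inv_cancel₀ h.l0
        linear_combination (a q) * this
      have e2 : (l - 1) * b q + (l⁻¹ - 1) * (b q + (l - 1) * b q) = 0 := by
        have := mul_inv_cancel₀ h.l0
        linear_combination (b q) * this
      have e3 : q + ((l⁻¹ - 1) * a q) • r + ((l - 1) * b q) • s +
          ((l - 1) * (a q + (l⁻¹ - 1) * a q)) • r + ((l⁻¹ - 1) * (b q + (l - 1) * b q)) • s =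
          q + ((l⁻¹ - 1) * a q + (l - 1) * (a q + (l⁻¹ - 1) * a q)) • r +
            ((l - 1) * b q + (l⁻¹ - 1) * (b q + (l - 1) * b q)) • s := by module
      rw [e3, e1, e2, zero_smul, zero_smul, add_zero, add_zero]
    have h2 : T⁻¹ q = q + ((l⁻¹ - 1) * a q) • r + ((l - 1) * b q) • s := by
      nth_rewrite 1 [← h1]
      exact T.symm_apply_apply _
    rw [h2]
    abel
  · rw [add_right_comm]
    exact h.br q u t
  · rw [add_right_comm]
    exact h.ar q u t

theorem HA.pow {T : E ≃ᵃ[ℝ] E} {r s : E} {l : ℝ} {a b : E → ℝ} (h : HA T r s l a b) (n : ℕ)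
    (q : E) : (T ^ n) q = q + ((l ^ n - 1) * a q) • r + ((l⁻¹ ^ n - 1) * b q) • s := by
  induction n with
  | zero =>
    rw [pow_zero, pow_zero, pow_zero, sub_self, zero_mul, zero_mul, zero_smul, zero_smul, add_zero,
      add_zero]
    rfl
  | succ n ih =>
    rw [pow_succ']
    show T ((T ^ n) q) = _
    rw [ih, h.map, h.ar, h.br]
    have e1 : (l ^ n - 1) * a q + (l - 1) * (a q + (l ^ n - 1) * a q) = (l ^ (n + 1) - 1) * a q := by
      ring
    have e2 : (l⁻¹ ^ n - 1) * b q + (l⁻¹ - 1) * (b q + (l⁻¹ ^ n - 1) * b q) =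
        (l⁻¹ ^ (n + 1) - 1) * b q := by
      ring
    rw [← e1, ← e2]
    module

theorem HA.a_pow {T : E ≃ᵃ[ℝ] E} {r s : E} {l : ℝ} {a b : E → ℝ} (h : HA T r s l a b) (n : ℕ)
    (q : E) : a ((T ^ n) q) = l ^ n * a q := by
  rw [h.pow, h.ar]
  ring

theorem pow_ne {l : ℝ} (h : 1 < |l|) {m n : ℕ} (hmn : m < n) : l ^ m ≠ l ^ n := by
  intro h0
  have h1 : |l| ^ m = |l| ^ n := by rw [← abs_pow, ← abs_pow, h0]
  have h2 := pow_lt_pow_right₀ h hmn
  rw [h1] at h2
  exact lt_irrefl _ h2

theorem HA.pow_ne_pow {T : E ≃ᵃ[ℝ] E} {r s : E} {l : ℝ} {a b : E → ℝ} (h : HA T r s l a b)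
    {m n : ℕ} (hmn : m < n) : T ^ m ≠ T ^ n := by
  intro h0
  have h1 := h.a_pow m (0 + (1 - a 0) • r + (0 : ℝ) • s)
  have h2 := h.a_pow n (0 + (1 - a 0) • r + (0 : ℝ) • s)
  rw [h0, h2, h.ar] at h1
  have h3 : l ^ n = l ^ m := by linarith
  exact pow_ne h.big hmn h3.symm

theorem tendsto_inv_pow {l : ℝ} (h : 1 < |l|) : Tendsto (fun n : ℕ => l⁻¹ ^ n) atTop (𝓝 0) := by
  apply tendsto_pow_atTop_nhds_zero_of_abs_lt_one
  rw [abs_inv]
  exact inv_lt_one_of_one_lt₀ h

end

section
variable {X Γ E : Type} [TopologicalSpace X] [Group Γ] [MulAction Γ X] [NormedAddCommGroup E]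
  [NormedSpace ℝ E] {dev : X → E} {hol : Γ →* (E ≃ᵃ[ℝ] E)}

/-- the stable and the unstable line of a leaf do not both meet the domain -/
theorem not_both (D : AffData X Γ E dev hol) (hinj : Function.Injective dev) {g : Γ} {r s : E}
    {l : ℝ} {a b : E → ℝ} (h : HA (hol g) r s l a b) {x y : X} {t u : ℝ}
    (hxy : dev y = dev x + t • r + u • s) (hx : a (dev x) = 0) (hy : b (dev y) = 0) : False := by
  have ht : a (dev y) = t := by rw [hxy, h.ar, hx, zero_add]
  have hu : u = -b (dev x) := by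
    rw [hxy, h.br] at hy
    linarith
  have hli := tendsto_inv_pow h.big
  have h1 : Tendsto (fun n : ℕ => dev x + (l⁻¹ ^ n * t) • r + (0 : ℝ) • s) atTop (𝓝 (dev x)) := by
    have h2 : Tendsto (fun n : ℕ => dev x + (l⁻¹ ^ n * t) • r + (0 : ℝ) • s) atTop
        (𝓝 (dev x + ((0 : ℝ) * t) • r + (0 : ℝ) • s)) :=
      ((tendsto_const_nhds.add ((hli.mul_const t).smul_const r))).add tendsto_const_nhds
    have e : dev x + ((0 : ℝ) * t) • r + (0 : ℝ) • s = dev x := by simp
    rw [e] at h2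
    exact h2
  have h2 : Tendsto (fun n : ℕ => hol (g ^ n) (dev x + (l⁻¹ ^ n * t) • r + (0 : ℝ) • s)) atTop
      (𝓝 (dev y)) := by
    have h3 : ∀ n : ℕ, hol (g ^ n) (dev x + (l⁻¹ ^ n * t) • r + (0 : ℝ) • s) =
        dev x + t • r + ((l⁻¹ ^ n - 1) * b (dev x)) • s := by
      intro n
      rw [map_pow, h.pow, h.ar, h.br, hx]
      have e1 : l ^ n * l⁻¹ ^ n = 1 := by rw [← mul_pow, mul_inv_cancel₀ h.l0, one_pow]
      have e2 : l⁻¹ ^ n * t + (l ^ n - 1) * (0 + l⁻¹ ^ n * t) = t := by linear_combination t * e1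
      have e3 : dev x + (l⁻¹ ^ n * t) • r + (0 : ℝ) • s + ((l ^ n - 1) * (0 + l⁻¹ ^ n * t)) • r +
          ((l⁻¹ ^ n - 1) * (b (dev x) + 0)) • s = dev x +
            (l⁻¹ ^ n * t + (l ^ n - 1) * (0 + l⁻¹ ^ n * t)) • r +
              ((l⁻¹ ^ n - 1) * b (dev x)) • s := by
        module
      rw [e3, e2]
    simp only [h3]
    have h4 : Tendsto (fun n : ℕ => dev x + t • r + ((l⁻¹ ^ n - 1) * b (dev x)) • s) atTop
        (𝓝 (dev x + t • r + ((0 - 1) * b (dev x)) • s)) :=
      tendsto_const_nhds.add (((hli.sub_const 1).mul_const (b (dev x))).smul_const s)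
    have e : dev y = dev x + t • r + ((0 - 1) * b (dev x)) • s := by
      rw [hxy, hu]
      congr 2
      ring
    rwa [← e] at h4
  obtain ⟨m, n, hmn, hmn'⟩ := exists_eq_of_fin (fin_range D hinj h1 h2)
  apply h.pow_ne_pow hmn
  rw [← map_pow, ← map_pow, hmn']

/-- the inclination lemma -/
theorem incl (D : AffData X Γ E dev hol) {g : Γ} {r s : E} {l : ℝ} {a b : E → ℝ}
    (h : HA (hol g) r s l a b) {p : E} {x y : ℝ} (hx : x ≠ 0)
    (hp : ∀ t : ℝ, ∀ z, dev z ≠ p + t • (x • r + y • s)) {t u : ℝ} (z : X)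
    (hz : dev z = p + t • r + u • s) (hb : b (dev z) = 0) : False := by
  have hli := tendsto_inv_pow h.big
  obtain ⟨τ, hτ⟩ : ∃ τ : ℕ → ℝ, ∀ n, τ n = (l⁻¹ ^ n * a (dev z) - a p) / x := ⟨_, fun n => rfl⟩
  have hτ' : ∀ n, τ n * x = l⁻¹ ^ n * a (dev z) - a p := fun n => by
    rw [hτ, div_mul_cancel₀ _ hx]
  have ha : a (dev z) = a p + t := by rw [hz, h.ar]
  have hu : u = -b p := by
    rw [hz, h.br] at hb
    linarith
  have hlim : Tendsto (fun n => hol (g ^ n) (p + (τ n * x) • r + (τ n * y) • s)) atTop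
      (𝓝 (dev z)) := by
    have h3 : ∀ n : ℕ, hol (g ^ n) (p + (τ n * x) • r + (τ n * y) • s) =
        p + t • r + (l⁻¹ ^ n * (b p + τ n * y) - b p) • s := by
      intro n
      rw [map_pow, h.pow, h.ar, h.br]
      have e1 : l ^ n * l⁻¹ ^ n = 1 := by rw [← mul_pow, mul_inv_cancel₀ h.l0, one_pow]
      have e2 : τ n * x + (l ^ n - 1) * (a p + τ n * x) = t := by
        rw [hτ']
        have : t = a (dev z) - a p := by linarith
        rw [this]
        linear_combination (a (dev z)) * e1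
      have e3 : τ n * y + (l⁻¹ ^ n - 1) * (b p + τ n * y) = l⁻¹ ^ n * (b p + τ n * y) - b p := by
        ring
      rw [← e2, ← e3]
      module
    simp only [h3]
    have hτl : Tendsto τ atTop (𝓝 ((0 * a (dev z) - a p) / x)) := by
      have h4 : Tendsto (fun n => (l⁻¹ ^ n * a (dev z) - a p) / x) atTop
          (𝓝 ((0 * a (dev z) - a p) / x)) := ((hli.mul_const _).sub_const _).div_const _
      exact h4.congr fun n => (hτ n).symm
    have h4 : Tendsto (fun n : ℕ => p + t • r + (l⁻¹ ^ n * (b p + τ n * y) - b p) • s) atTop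
        (𝓝 (p + t • r + (0 * (b p + (0 * a (dev z) - a p) / x * y) - b p) • s)) :=
      tendsto_const_nhds.add
        (((hli.mul ((hτl.mul_const y).const_add (b p))).sub_const (b p)).smul_const s)
    have e : dev z = p + t • r + (0 * (b p + (0 * a (dev z) - a p) / x * y) - b p) • s := by
      rw [zero_mul, zero_sub, ← hu]
      exact hz
    rwa [← e] at h4
  have hoe : IsOpen (Set.range dev) := D.loc.isOpenMap.isOpen_range
  obtain ⟨n, hn⟩ := (hlim.eventually (hoe.mem_nhds ⟨z, rfl⟩)).exists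
  obtain ⟨w, hw⟩ := hn
  apply hp (τ n) ((g ^ n)⁻¹ • w)
  rw [D.equi, hw, hol_inv_apply]
  module

theorem incl' (D : AffData X Γ E dev hol) {g : Γ} {r s : E} {l : ℝ} {a b : E → ℝ}
    (h : HA (hol g) r s l a b) {p : E} {x y : ℝ} (hy : y ≠ 0)
    (hp : ∀ t : ℝ, ∀ z, dev z ≠ p + t • (x • r + y • s)) {t u : ℝ} (z : X)
    (hz : dev z = p + t • r + u • s) (ha : a (dev z) = 0) : False := by
  have h' : HA (hol g⁻¹) s r l b a := by
    rw [map_inv]
    exact h.inv
  refine incl D h' (p := p) (x := y) (y := x) hy (fun t z => ?_) (t := u) (u := t) z ?_ ha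
  · rw [add_comm (y • s)]
    exact hp t z
  · rw [hz]
    abel

/-- two independent hyperbolic motions are impossible -/
theorem core [T2Space X] [FiniteDimensional ℝ E] [SecondCountableTopology X] [ConnectedSpace X]
    (D : AffData X Γ E dev hol) (hinj : Function.Injective dev) {g f : Γ} {r s r' s' : E}
    {l l' : ℝ} {a b a' b' : E → ℝ} (hg : HA (hol g) r s l a b) (hf : HA (hol f) r' s' l' a' b')
    (hbc : Continuous b) (hba : ∀ (p q : E) (t : ℝ), b (p + t • (q - p)) = b p + t * (b q - b p))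
    {x1 y1 x2 y2 : ℝ} (hr' : r' = x1 • r + y1 • s) (hs : s = x2 • r' + y2 • s')
    (hx1 : x1 ≠ 0) (hx2 : x2 ≠ 0) : False := by
  -- the unstable lines do not meet the domain
  have key : ∀ x : X, b (dev x) ≠ 0 := by
    intro x hx
    have h1 : ∀ (t : ℝ) (z : X), dev z ≠ (dev x + (-a (dev x)) • r) + t • (x2 • r' + y2 • s') := by
      intro t z hz
      rw [← hs] at hz
      refine not_both D hinj hg (x := z) (y := x) (t := a (dev x)) (u := -t) ?_ ?_ hx
      · rw [hz]
        module
      · rw [hz, hg.ar]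
        ring
    have h2 : ∀ (t : ℝ) (z : X), dev z ≠
        (dev x + (-b' (dev x)) • s') + t • (x1 • r + y1 • s) := by
      intro t z hz
      rw [← hr'] at hz
      have hzb : b' (dev z) = 0 := by
        have e : dev z = dev x + t • r' + (-b' (dev x)) • s' := by rw [hz]; abel
        rw [e, hf.br]
        ring
      -- `r = c • r' + d • s'`
      obtain ⟨c, d, hcd⟩ : ∃ c d : ℝ, r = c • r' + d • s' := by
        refine ⟨x1⁻¹ * (1 - y1 * x2), x1⁻¹ * (-(y1 * y2)), ?_⟩
        have e1 : x1 • r = (1 - y1 * x2) • r' + (-(y1 * y2)) • s' := by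
          have e2 : x1 • r = r' - y1 • s := by rw [hr']; abel
          rw [e2, hs, ← hs]
          nth_rewrite 1 [hs]
          module
        have e3 : r = x1⁻¹ • (x1 • r) := by rw [smul_smul, inv_mul_cancel₀ hx1, one_smul]
        rw [e3, e1]
        module
      refine incl D hf hx2 h1 (t := t + a (dev x) * c) (u := -b' (dev x) + a (dev x) * d) z ?_ hzb
      rw [hz]
      nth_rewrite 1 [hcd]
      module
    -- `s' = c • r + d • s`
    obtain ⟨c, d, hcd⟩ : ∃ c d : ℝ, b' (dev x) • s' = c • r + d • s := by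
      by_cases hy2 : y2 = 0
      · exfalso
        -- then `s` is parallel to `r'`
        rw [hy2, zero_smul, add_zero] at hs
        have e1 : s = (x2 * x1) • r + (x2 * y1) • s := by
          nth_rewrite 1 [hs]
          rw [hr']
          module
        have e2 := hg.ar 0 (x2 * x1) (x2 * y1)
        rw [add_assoc, ← e1] at e2
        have e3 := hg.ar 0 0 1
        rw [zero_smul, one_smul, add_zero] at e3
        rw [e2] at e3
        have e4 : x2 * x1 = 0 := by linarith
        exact (mul_ne_zero hx2 hx1) e4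
      · refine ⟨b' (dev x) * y2⁻¹ * (-(x2 * x1)), b' (dev x) * y2⁻¹ * (1 - x2 * y1), ?_⟩
        have e1 : y2 • s' = (-(x2 * x1)) • r + (1 - x2 * y1) • s := by
          have e2 : y2 • s' = s - x2 • r' := by
            nth_rewrite 1 [hs]
            abel
          rw [e2, hr']
          module
        have e3 : s' = y2⁻¹ • (y2 • s') := by rw [smul_smul, inv_mul_cancel₀ hy2, one_smul]
        rw [e3, e1]
        module
    refine incl D hg hx1 h2 (t := c) (u := d) x ?_ hx
    have e : dev x = dev x + (-b' (dev x)) • s' + b' (dev x) • s' := by module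
    nth_rewrite 1 [e]
    rw [hcd]
    module
  -- the domain is contained in a half-space
  obtain ⟨x0⟩ : Nonempty X := inferInstance
  obtain ⟨ε, hε, hpos⟩ : ∃ ε : ℝ, ε ≠ 0 ∧ ∀ x, 0 < ε * b (dev x) := by
    have hc : Continuous fun x => b (dev x) := hbc.comp D.loc.continuous
    have hpre := isPreconnected_range hc
    rcases lt_or_gt_of_ne (key x0) with h0 | h0
    · refine ⟨-1, by norm_num, fun x => ?_⟩
      by_contra hcon
      have h1 : 0 ≤ b (dev x) := by linarith
      obtain ⟨z, hz⟩ := hpre.Icc_subset (mem_range_self x0) (mem_range_self x) ⟨h0.le, h1⟩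
      exact key z hz
    · refine ⟨1, by norm_num, fun x => ?_⟩
      by_contra hcon
      have h1 : b (dev x) ≤ 0 := by linarith
      obtain ⟨z, hz⟩ := hpre.Icc_subset (mem_range_self x) (mem_range_self x0) ⟨h1, h0.le⟩
      exact key z hz
  have hconv : Convex ℝ {q : E | 0 < ε * b q} := by
    intro p hp q hq t u ht hu htu
    have e : t • p + u • q = p + u • (q - p) := by
      have : t = 1 - u := by linarith
      rw [this]
      module
    show 0 < ε * b (t • p + u • q)
    rw [e, hba]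
    have hp' : 0 < ε * b p := hp
    have hq' : 0 < ε * b q := hq
    have e2 : ε * (b p + u * (b q - b p)) = t * (ε * b p) + u * (ε * b q) := by
      have : t = 1 - u := by linarith
      rw [this]
      ring
    rw [e2]
    rcases eq_or_lt_of_le ht with h0 | h0
    · have : u = 1 := by linarith
      rw [← h0, this]
      linarith
    · have h1 := mul_pos h0 hp'
      have h2 := mul_nonneg hu hq'.le
      linarith
  have hsub : convexHull ℝ (Set.range dev) ⊆ {q : E | 0 < ε * b q} := by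
    refine convexHull_min ?_ hconv
    rintro _ ⟨x, rfl⟩
    exact hpos x
  have huniv : convexHull ℝ (Set.range dev) = univ := by
    refine convex_univ' D (convex_convexHull ℝ _) ⟨dev x0, subset_convexHull ℝ _ ⟨x0, rfl⟩⟩ ?_
    intro γ p hp
    have h1 : (hol γ) '' (convexHull ℝ (Set.range dev)) ⊆ convexHull ℝ (Set.range dev) := by
      have h2 := (hol γ).toAffineMap.image_convexHull (Set.range dev)
      have h3 : (hol γ).toAffineMap '' (convexHull ℝ (Set.range dev)) =
          (hol γ) '' (convexHull ℝ (Set.range dev)) := rfl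
      rw [← h3, h2]
      refine convexHull_mono ?_
      rintro _ ⟨_, ⟨x, rfl⟩, rfl⟩
      exact ⟨γ • x, D.equi γ x⟩
    exact h1 ⟨p, hp, rfl⟩
  have h0 : (0 : E) + (0 : ℝ) • r + (-b 0) • s ∈ {q : E | 0 < ε * b q} := by
    apply hsub
    rw [huniv]
    exact mem_univ _
  have h1 : 0 < ε * b ((0 : E) + (0 : ℝ) • r + (-b 0) • s) := h0
  rw [hg.br] at h1
  have h2 : ε * (b 0 + -b 0) = 0 := by ring
  linarith

end

end Pool.Agent.H817.SV
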