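import Pool.Agent.H817.SV.Plane

/-!
Groups of affine maps whose linear parts fix a subspace of codimension two, on complete manifolds.
-/

set_option autoImplicit false

namespace Pool.Agent.H817.SV

open Set Filter Topology Module
open Pool.Agent.W689.Mk

section
variable {X Γ E : Type} [TopologicalSpace X] [T2Space X]
  [Group Γ] [MulAction Γ X] [NormedAddCommGroup E] [NormedSpace ℝ E]
  [FiniteDimensional ℝ E] {dev : X → E} {hol : Γ →* (E ≃ᵃ[ℝ] E)}

omit [FiniteDimensional ℝ E] in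
/-- lifting eigenvectors -/
theorem lift_eig (W : Submodule ℝ E) (L : E →ₗ[ℝ] E) (hfix : ∀ w ∈ W, L w = w) (π : E →ₗ[ℝ] (ℝ × ℝ))
    (hπ : Function.Surjective π) (hker : ∀ v, π v = 0 ↔ v ∈ W) (A : SL2)
    (hA : ∀ v, π (L v) = act A (π v)) {r : ℝ × ℝ} {l : ℝ} (hl : l - 1 ≠ 0) (hr : act A r = l • r) :
    ∃ R : E, π R = r ∧ L R = l • R := by
  obtain ⟨R0, hR0⟩ := hπ r
  have hw : L R0 - l • R0 ∈ W := by
    rw [← hker, map_sub, map_smul, hA, hR0, hr, sub_self]
  refine ⟨R0 + (1 / (l - 1)) • (L R0 - l • R0), ?_, ?_⟩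
  · rw [map_add, map_smul, (hker _).2 hw, smul_zero, add_zero, hR0]
  · rw [map_add, map_smul, hfix _ hw]
    have e : L R0 = l • R0 + (L R0 - l • R0) := by abel
    obtain ⟨w, hw'⟩ : ∃ w, w = L R0 - l • R0 := ⟨_, rfl⟩
    rw [← hw'] at e ⊢
    rw [e]
    have h1 : (1 : ℝ) + 1 / (l - 1) = l * (1 / (l - 1)) := by
      field_simp
      ring
    have e2 : l • R0 + w + (1 / (l - 1)) • w = l • R0 + (1 + 1 / (l - 1)) • w := by module
    rw [e2, h1]
    module

theorem HM.pow {A : SL2} {r s : ℝ × ℝ} {l : ℝ} (h : HM A r s l) (n : ℕ) :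
    act (A ^ n) r = l ^ n • r := by
  induction n with
  | zero => rw [pow_zero, pow_zero, act_one, one_smul]
  | succ n ih => rw [pow_succ', act_mul, ih, act_smul, h.er, smul_smul, pow_succ]

theorem line_triv (D : AffData X Γ E dev hol) (hdev : IsHomeomorph dev)
    (W : Submodule ℝ E) (hW2 : finrank ℝ (E ⧸ W) = 2) {N : Type*} [Group N] (ι : N →* Γ)
    (hN : ∀ n, ∀ w ∈ W, lin hol (ι n) w = w)
    (hdet : ∀ n, LinearMap.det ((hol (ι n)).linear : E →ₗ[ℝ] E) = 1) :
    ∀ n ∈ derivedSeries N 2, ∀ v, lin hol (ι n) v - v ∈ W := by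
  have hinv : ∀ n, ∀ w ∈ W, lin hol (ι n) w ∈ W := fun n w hw => by rwa [hN n w hw]
  obtain ⟨ρ, hρ⟩ : ∃ ρ : N →* ((E ⧸ W) →ₗ[ℝ] (E ⧸ W)), ∀ n,
      ρ n = W.mapQ W ((hol (ι n)).linear : E →ₗ[ℝ] E) (hinv n) := by
    refine ⟨{ toFun := fun n => W.mapQ W ((hol (ι n)).linear : E →ₗ[ℝ] E) (hinv n)
              map_one' := ?_
              map_mul' := fun a b => ?_ }, fun n => rfl⟩
    · refine LinearMap.ext fun v => ?_
      obtain ⟨v, rfl⟩ := W.mkQ_surjective v
      rw [Submodule.mkQ_apply, Submodule.mapQ_apply, Module.End.one_apply]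
      show Submodule.Quotient.mk (lin hol (ι 1) v) = _
      rw [map_one, lin_one]
    · refine LinearMap.ext fun v => ?_
      obtain ⟨v, rfl⟩ := W.mkQ_surjective v
      rw [Submodule.mkQ_apply, Submodule.mapQ_apply, Module.End.mul_apply, Submodule.mapQ_apply,
        Submodule.mapQ_apply]
      show Submodule.Quotient.mk (lin hol (ι (a * b)) v) =
        Submodule.Quotient.mk (lin hol (ι a) (lin hol (ι b) v))
      rw [map_mul, lin_mul]
  have hd : ∀ n, LinearMap.det (ρ n) = 1 := by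
    intro n
    have h1 := LinearMap.det_eq_det_mul_det W ((hol (ι n)).linear : E →ₗ[ℝ] E) (hinv n)
    have h2 : ((hol (ι n)).linear : E →ₗ[ℝ] E).restrict (hinv n) = LinearMap.id :=
      LinearMap.ext fun w => Subtype.ext (hN n w w.2)
    rw [h2, LinearMap.det_id, one_mul, hdet, ← hρ] at h1
    exact h1.symm
  obtain ⟨M, φ, hφ⟩ := exists_rep hW2 ρ hd
  obtain ⟨π, hπ⟩ : ∃ π : E →ₗ[ℝ] (ℝ × ℝ), ∀ v, π v = φ (Submodule.Quotient.mk v) :=
    ⟨φ.toLinearMap.comp W.mkQ, fun v => rfl⟩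
  have hsur : Function.Surjective π := by
    intro y
    obtain ⟨v, hv⟩ := W.mkQ_surjective (φ.symm y)
    refine ⟨v, ?_⟩
    rw [hπ, ← Submodule.mkQ_apply, hv, φ.apply_symm_apply]
  have hker : ∀ v, π v = 0 ↔ v ∈ W := by
    intro v
    rw [hπ, LinearEquiv.map_eq_zero_iff, Submodule.Quotient.mk_eq_zero]
  have hact : ∀ (n : N) (v : E), π (lin hol (ι n) v) = act (M n) (π v) := by
    intro n v
    rw [hπ, hπ, ← hφ, hρ, Submodule.mapQ_apply]
    rfl
  rcases dichotomy M with ⟨g, f, r, s, l, r', s', l', hg, hf, h1, h2, h3, h4⟩ | h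
  · exfalso
    have hgs : act (M g) s = l⁻¹ • s := hg.es
    obtain ⟨R, hR, hR'⟩ := lift_eig W ((hol (ι g)).linear : E →ₗ[ℝ] E) (hN g) π hsur hker (M g)
      (hact g) hg.l1 hg.er
    obtain ⟨S, hS, hS'⟩ := lift_eig W ((hol (ι g)).linear : E →ₗ[ℝ] E) (hN g) π hsur hker (M g)
      (hact g) hg.l2 hgs
    have hR' : lin hol (ι g) R = l • R := hR'
    have hS' : lin hol (ι g) S = l⁻¹ • S := hS'
    -- the decomposition
    have hdec : ∀ v : E, ∃ w ∈ W, v = w + (cr (π v) s / cr r s) • R + (cr r (π v) / cr r s) • S := by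
      intro v
      refine ⟨v - ((cr (π v) s / cr r s) • R + (cr r (π v) / cr r s) • S), ?_, by abel⟩
      rw [← hker, map_sub, map_add, map_smul, map_smul, hR, hS, ← cramer hg.ind, sub_self]
    -- the origin
    obtain ⟨o, w2, hw2, ho⟩ : ∃ o, ∃ w2 ∈ W, hol (ι g) o = o + w2 := by
      obtain ⟨w, hw, hwe⟩ := hdec (hol (ι g) 0)
      obtain ⟨A, hA⟩ : ∃ A, A = cr (π (hol (ι g) 0)) s / cr r s := ⟨_, rfl⟩
      obtain ⟨B, hB⟩ : ∃ B, B = cr r (π (hol (ι g) 0)) / cr r s := ⟨_, rfl⟩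
      rw [← hA, ← hB] at hwe
      refine ⟨(-(A / (l - 1))) • R + (-(B / (l⁻¹ - 1))) • S, w, hw, ?_⟩
      have e1 : hol (ι g) ((-(A / (l - 1))) • R + (-(B / (l⁻¹ - 1))) • S) =
          hol (ι g) 0 + ((-(A / (l - 1))) • (l • R) + (-(B / (l⁻¹ - 1))) • (l⁻¹ • S)) := by
        rw [← hR', ← hS']
        have := hol_add (hol := hol) (ι g) 0 ((-(A / (l - 1))) • R + (-(B / (l⁻¹ - 1))) • S)
        rw [zero_add] at this
        rw [this]
        congr 1
        simp only [lin, map_add, map_smul]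
      rw [e1, hwe]
      have e2 : A + (-(A / (l - 1))) * l = -(A / (l - 1)) := by
        have := hg.l1
        field_simp
        ring
      have e3 : B + (-(B / (l⁻¹ - 1))) * l⁻¹ = -(B / (l⁻¹ - 1)) := by
        have := hg.l2
        obtain ⟨k, hk⟩ : ∃ k, k = l⁻¹ := ⟨_, rfl⟩
        rw [← hk] at this ⊢
        field_simp
        ring
      have e4 : w + A • R + B • S + ((-(A / (l - 1))) • (l • R) + (-(B / (l⁻¹ - 1))) • (l⁻¹ • S)) =
          (A + (-(A / (l - 1))) * l) • R + (B + (-(B / (l⁻¹ - 1))) * l⁻¹) • S + w := by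
        module
      rw [e4, e2, e3]
    have hW : ∀ (n : N) (p : E) (w : E), w ∈ W → hol (ι n) (p + w) = hol (ι n) p + w := by
      intro n p w hw
      rw [hol_add, hN n w hw]
    have hgo : ∀ (n : ℕ) (t : ℝ), hol (ι (g ^ n)) (o + t • S) =
        o + (n : ℝ) • w2 + (l⁻¹ ^ n * t) • S := by
      intro n t
      induction n with
      | zero =>
        rw [pow_zero, map_one, map_one, pow_zero, one_mul, Nat.cast_zero, zero_smul, add_zero]
        rfl
      | succ n ih =>
        rw [pow_succ', map_mul, map_mul]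
        show hol (ι g) (hol (ι (g ^ n)) (o + t • S)) = _
        rw [ih]
        have e1 : o + (n : ℝ) • w2 + (l⁻¹ ^ n * t) • S = o + (l⁻¹ ^ n * t) • S + (n : ℝ) • w2 := by
          abel
        have e2 : lin hol (ι g) ((l⁻¹ ^ n * t) • S) = (l⁻¹ ^ n * t) • (l⁻¹ • S) := by
          rw [← hS']
          simp only [lin, map_smul]
        rw [e1, hW g _ _ (W.smul_mem _ hw2), hol_add, e2, ho, Nat.cast_succ, pow_succ]
        module
    -- the point
    obtain ⟨d, d', w', hw', hfd⟩ : ∃ (d d' : ℝ) (w' : E), w' ∈ W ∧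
        hol (ι f) (o + d • S) = o + w' + d' • S := by
      have hc1 : cr (act (M f) s) s ≠ 0 := by
        intro h0
        rcases hf.line h0 with h5 | h5
        · exact h3 h5
        · exact h4 h5
      obtain ⟨d, hd⟩ : ∃ d, d = -cr (π (hol (ι f) o - o)) s / cr (act (M f) s) s := ⟨_, rfl⟩
      obtain ⟨w', hw', hwe⟩ := hdec (hol (ι f) (o + d • S) - o)
      refine ⟨d, cr r (π (hol (ι f) (o + d • S) - o)) / cr r s, w', hw', ?_⟩
      have e1 : cr (π (hol (ι f) (o + d • S) - o)) s = 0 := by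
        have e2 : hol (ι f) (o + d • S) - o = (hol (ι f) o - o) + d • lin hol (ι f) S := by
          rw [hol_add]
          have : lin hol (ι f) (d • S) = d • lin hol (ι f) S := by simp only [lin, map_smul]
          rw [this]
          abel
        rw [e2, map_add, map_smul, hact, hS, cr_add_left, cr_smul_left, hd, div_mul_cancel₀ _ hc1,
          add_neg_cancel]
      rw [e1, zero_div, zero_smul, add_zero] at hwe
      rw [add_assoc, ← hwe]
      abel
    have hli := tendsto_inv_pow hg.big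
    obtain ⟨x, hx⟩ := hdev.surjective o
    obtain ⟨y, hy⟩ := hdev.surjective (o + w')
    have hl1 : Tendsto (fun n : ℕ => o + (l⁻¹ ^ n * d) • S) atTop (𝓝 (dev x)) := by
      have h5 : Tendsto (fun n : ℕ => o + (l⁻¹ ^ n * d) • S) atTop (𝓝 (o + ((0 : ℝ) * d) • S)) :=
        tendsto_const_nhds.add ((hli.mul_const d).smul_const S)
      rw [zero_mul, zero_smul, add_zero, ← hx] at h5
      rw [hx] at h5 ⊢
      exact h5
    have hval : ∀ n : ℕ, hol (ι (g ^ n * f * (g ^ n)⁻¹)) (o + (l⁻¹ ^ n * d) • S) =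
        o + w' + (l⁻¹ ^ n * d') • S := by
      intro n
      have e1 : hol (ι (g ^ n)) (o + d • S + (-(n : ℝ)) • w2) = o + (l⁻¹ ^ n * d) • S := by
        rw [hW _ _ _ (W.smul_mem _ hw2), hgo]
        module
      have e2 : hol (ι (g ^ n * f * (g ^ n)⁻¹)) (o + (l⁻¹ ^ n * d) • S) =
          hol (ι (g ^ n)) (hol (ι f) (hol (ι (g ^ n))⁻¹ (o + (l⁻¹ ^ n * d) • S))) := by
        rw [map_mul, map_mul, map_inv, map_mul, map_mul]
        rfl
      rw [e2, ← e1, hol_inv_apply, hW _ _ _ (W.smul_mem _ hw2), hfd]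
      have e3 : o + w' + d' • S + (-(n : ℝ)) • w2 = o + d' • S + (w' + (-(n : ℝ)) • w2) := by abel
      rw [e3, hW _ _ _ (W.add_mem hw' (W.smul_mem _ hw2)), hgo]
      module
    have hl2 : Tendsto (fun n : ℕ => hol (ι (g ^ n * f * (g ^ n)⁻¹)) (o + (l⁻¹ ^ n * d) • S)) atTop
        (𝓝 (dev y)) := by
      simp only [hval]
      have h5 : Tendsto (fun n : ℕ => o + w' + (l⁻¹ ^ n * d') • S) atTop
          (𝓝 (o + w' + ((0 : ℝ) * d') • S)) :=
        tendsto_const_nhds.add ((hli.mul_const d').smul_const S)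
      rw [zero_mul, zero_smul, add_zero] at h5
      rw [hy]
      exact h5
    obtain ⟨m, n, hmn, heq⟩ := exists_eq_of_fin (fin_range D hdev.injective hl1 hl2)
    have hM : M (g ^ m * f * (g ^ m)⁻¹) = M (g ^ n * f * (g ^ n)⁻¹) := by
      have h5 : ∀ v, act (M (g ^ m * f * (g ^ m)⁻¹)) v = act (M (g ^ n * f * (g ^ n)⁻¹)) v := by
        intro v
        obtain ⟨v, rfl⟩ := hsur v
        rw [← hact, ← hact, heq]
      exact eq_of_basis hg.ind (h5 r) (h5 s)
    obtain ⟨k, rfl⟩ : ∃ k, n = m + k := ⟨n - m, by omega⟩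
    have hk : k ≠ 0 := by
      rintro rfl
      exact lt_irrefl _ hmn
    have hcomm : M g ^ k * M f = M f * M g ^ k := by
      rw [map_mul, map_mul, map_mul, map_mul, map_inv, map_inv, map_pow, map_pow, pow_add,
        mul_inv_rev, mul_assoc, mul_assoc (M g ^ m), mul_assoc (M g ^ m), mul_assoc (M g ^ k)] at hM
      have h5 := mul_left_cancel hM
      have h6 : M f * (M g ^ m)⁻¹ = (M g ^ k * (M f * (M g ^ k)⁻¹)) * (M g ^ m)⁻¹ := by
        rw [h5]
        group
      have h7 := mul_right_cancel h6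
      nth_rewrite 2 [h7]
      group
    have hu : act (M g ^ k) (act (M f) r) = l ^ k • act (M f) r := by
      rw [← act_mul, hcomm, act_mul, hg.pow, act_smul]
    have hcr := cr_act (M g ^ k) (act (M f) r) r
    rw [hu, hg.pow, cr_smul_left, cr_smul_right] at hcr
    have hll : l ^ k * l ^ k - 1 ≠ 0 := by
      intro h0
      have h5 : l ^ 0 ≠ l ^ (k + k) := pow_ne hg.big (by omega)
      apply h5
      rw [pow_zero, pow_add]
      linarith
    have h6 : cr (act (M f) r) r = 0 := by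
      have h7 : (l ^ k * l ^ k - 1) * cr (act (M f) r) r = 0 := by linear_combination hcr
      exact (mul_eq_zero.1 h7).resolve_left hll
    rcases hf.line h6 with h7 | h7
    · exact h1 h7
    · exact h2 h7
  · intro n hn v
    rw [← hker, map_sub, hact, h n hn, act_one, sub_self]

end

end Pool.Agent.H817.SV
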