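import Pool.Agent.H817.SV.Line
import Pool.Graph.R_pool_sql_team_seeded_63374d34.N520.SV.Fin3
import Pool.Graph.R_pool_sql_team_seeded_63374d34.N520.RO.RankC

/-!
Domain quotients with an invariant plane and solvable quotient, and reducible domain quotients of
the affine 3-space, are complete with virtually solvable holonomy.
-/

set_option autoImplicit false

namespace Pool.Agent.H817.SV

open Set Filter Topology Module
open Pool.Agent.W689.Mk
open scoped commutatorElement

section
variable {X Γ E : Type} [TopologicalSpace X]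
  [Group Γ] [MulAction Γ X] [NormedAddCommGroup E] [NormedSpace ℝ E]
  {dev : X → E} {hol : Γ →* (E ≃ᵃ[ℝ] E)}

/-- unipotent groups of two steps -/
theorem unip (hol : Γ →* (E ≃ᵃ[ℝ] E)) (H : Subgroup Γ) (W : Submodule ℝ E) (m : ℕ)
    (h1 : ∀ γ ∈ derivedSeries H m, ∀ v, lin hol (γ : Γ) v - v ∈ W)
    (h2 : ∀ γ ∈ derivedSeries H m, ∀ w ∈ W, lin hol (γ : Γ) w = w) :
    ∀ γ ∈ derivedSeries H (m + 2), hol (γ : Γ) = 1 := by
  obtain ⟨L, hL⟩ : ∃ L : H →* (E ≃ₗ[ℝ] E), ∀ (γ : H) (v : E), L γ v = lin hol (γ : Γ) v :=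
    ⟨AffineEquiv.linearHom.comp (hol.comp H.subtype), fun γ v => rfl⟩
  have hc : derivedSeries H (m + 1) ≤ L.ker := by
    rw [derivedSeries_succ, Subgroup.commutator_le]
    intro a ha b hb
    rw [MonoidHom.mem_ker, map_commutatorElement, commutatorElement_eq_one_iff_mul_comm]
    refine LinearEquiv.ext fun v => ?_
    show L a (L b v) = L b (L a v)
    rw [hL, hL, hL, hL]
    have e1 : lin hol (b : Γ) v = v + (lin hol (b : Γ) v - v) := by abel
    have e2 : lin hol (a : Γ) v = v + (lin hol (a : Γ) v - v) := by abel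
    have e3 : lin hol (a : Γ) (v + (lin hol (b : Γ) v - v)) =
        lin hol (a : Γ) v + (lin hol (b : Γ) v - v) := by
      have : lin hol (a : Γ) (v + (lin hol (b : Γ) v - v)) =
          lin hol (a : Γ) v + lin hol (a : Γ) (lin hol (b : Γ) v - v) := by
        simp only [lin, map_add]
      rw [this, h2 a ha _ (h1 b hb v)]
    have e4 : lin hol (b : Γ) (v + (lin hol (a : Γ) v - v)) =
        lin hol (b : Γ) v + (lin hol (a : Γ) v - v) := by
      have : lin hol (b : Γ) (v + (lin hol (a : Γ) v - v)) =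
          lin hol (b : Γ) v + lin hol (b : Γ) (lin hol (a : Γ) v - v) := by
        simp only [lin, map_add]
      rw [this, h2 b hb _ (h1 a ha v)]
    rw [← e1] at e3
    rw [← e2] at e4
    rw [e3, e4]
    abel
  have hk : derivedSeries H (m + 2) ≤ (hol.comp H.subtype).ker := by
    rw [derivedSeries_succ, Subgroup.commutator_le]
    intro a ha b hb
    rw [MonoidHom.mem_ker, map_commutatorElement, commutatorElement_eq_one_iff_mul_comm]
    have h3 : ∀ c ∈ derivedSeries H (m + 1), ∀ p, hol (c : Γ) p = p + hol (c : Γ) 0 := by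
      intro c hc' p
      have h4 := hol_add (hol := hol) (c : Γ) 0 p
      rw [zero_add, ← hL, MonoidHom.mem_ker.1 (hc hc')] at h4
      rw [h4, add_comm]
      rfl
    refine AffineEquiv.ext fun p => ?_
    show hol (a : Γ) (hol (b : Γ) p) = hol (b : Γ) (hol (a : Γ) p)
    rw [h3 a ha (hol (b : Γ) p), h3 b hb p, h3 b hb (hol (a : Γ) p), h3 a ha p]
    abel
  exact fun γ hγ => hk hγ

/-- the commutators have determinant one -/
theorem det_one (hol : Γ →* (E ≃ᵃ[ℝ] E)) (H : Subgroup Γ) :
    ∀ γ ∈ derivedSeries H 1, LinearMap.det ((hol (γ : Γ)).linear : E →ₗ[ℝ] E) = 1 := by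
  obtain ⟨c, hc⟩ : ∃ c : H →* ℝ, ∀ γ, c γ = LinearMap.det ((hol (γ : Γ)).linear : E →ₗ[ℝ] E) := by
    refine ⟨{ toFun := fun γ => LinearMap.det ((hol (γ : Γ)).linear : E →ₗ[ℝ] E)
              map_one' := ?_
              map_mul' := fun a b => ?_ }, fun γ => rfl⟩
    · have : ((hol ((1 : H) : Γ)).linear : E →ₗ[ℝ] E) = LinearMap.id := by
        refine LinearMap.ext fun v => ?_
        show lin hol ((1 : H) : Γ) v = v
        rw [Subgroup.coe_one]
        simp only [lin, map_one]
        rfl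
      rw [this, LinearMap.det_id]
    · rw [← LinearMap.det_comp]
      congr 1
      refine LinearMap.ext fun v => ?_
      show lin hol ((a * b : H) : Γ) v = lin hol (a : Γ) (lin hol (b : Γ) v)
      rw [Subgroup.coe_mul, lin_mul]
  intro γ hγ
  rw [← hc]
  exact char_one c γ hγ

end

section
variable (X Γ E : Type) [NormedAddCommGroup E] [NormedSpace ℝ E]
  [FiniteDimensional ℝ E] [TopologicalSpace X] [T2Space X] [SecondCountableTopology X]
  [ConnectedSpace X] [Group Γ] [MulAction Γ X] (dev : X → E) (hol : Γ →* (E ≃ᵃ[ℝ] E))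

theorem plane_case (D : AffData X Γ E dev hol) (hinj : Function.Injective dev) (H : Subgroup Γ)
    (hH : H.FiniteIndex) (W : Submodule ℝ E) (hW2 : finrank ℝ W = 2) (j : ℕ)
    (hj : ∀ γ ∈ derivedSeries H j, ∀ v : E, hol (γ : Γ) v - v ∈ W) :
    IsHomeomorph dev ∧ Group.IsSolvable (H.map hol) := by
  have hsol : Group.IsSolvable (H.map hol) := by
    refine solv_of_ker hol H (j + 1 + 2 + 2) (unip hol H W (j + 1 + 2) ?_ ?_)
    · intro γ hγ v
      have h1 := hj γ (derivedSeries_antitone _ (by omega) hγ)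
      have h2 : lin hol (γ : Γ) v - v = (hol (γ : Γ) v - v) - (hol (γ : Γ) 0 - 0) := by
        have h3 : hol (γ : Γ) v = hol (γ : Γ) 0 + lin hol (γ : Γ) v := by
          rw [← hol_add, zero_add]
        rw [h3]
        abel
      rw [h2]
      exact W.sub_mem (h1 v) (h1 0)
    · intro γ hγ w hw
      rw [← ds_map] at hγ
      obtain ⟨n, hn, rfl⟩ := hγ
      exact plane_triv D hinj W hW2 (H.subtype.comp (derivedSeries H (j + 1)).subtype)
        (fun n q => hj _ (derivedSeries_antitone _ (by omega) n.2) q)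
        (fun n => det_one hol H _ (derivedSeries_antitone _ (by omega) n.2)) n hn w hw
  refine ⟨Pool.Agent.N520.RO.complete_of_solv X Γ E dev hol D hinj H hH ?_, hsol⟩
  rw [← Subgroup.map_map]
  have := hsol
  exact Group.isSolvable_of_surjective (MonoidHom.subgroupMap_surjective _ _)

theorem line_case (D : AffData X Γ E dev hol) (hinj : Function.Injective dev) (H : Subgroup Γ)
    (hH : H.FiniteIndex) (h3 : finrank ℝ E = 3) (W : Submodule ℝ E) (hW1 : finrank ℝ W = 1)
    (hinv : ∀ γ ∈ H, ∀ v ∈ W, (hol γ).linear v ∈ W) :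
    IsHomeomorph dev ∧ Group.IsSolvable (H.map hol) := by
  have hW0 : W ≠ ⊥ := by
    rintro rfl
    rw [finrank_bot] at hW1
    exact zero_ne_one hW1
  have hWt : W ≠ ⊤ := by
    rintro rfl
    rw [finrank_top, h3] at hW1
    norm_num at hW1
  have hdev := Pool.Agent.H817.RB.reducible_complete D hinj h3 H hH W hW0 hWt hinv
  refine ⟨hdev, ?_⟩
  have hfix : ∀ γ ∈ derivedSeries H 1, ∀ w ∈ W, lin hol (γ : Γ) w = w := by
    obtain ⟨e, he0, he⟩ := finrank_eq_one_iff'.1 hW1
    have h1 : ∀ γ : H, ∃ c : ℝ, lin hol (γ : Γ) (e : E) = c • (e : E) := by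
      intro γ
      obtain ⟨c, hc⟩ := he ⟨lin hol (γ : Γ) (e : E), hinv γ γ.2 e e.2⟩
      exact ⟨c, (congrArg Subtype.val hc).symm⟩
    choose c hc using h1
    have he1 : (e : E) ≠ 0 := fun h => he0 (Subtype.ext h)
    obtain ⟨χ, hχ⟩ : ∃ χ : H →* ℝ, ∀ γ, χ γ = c γ := by
      refine ⟨{ toFun := c
                map_one' := ?_
                map_mul' := fun a b => ?_ }, fun γ => rfl⟩
      · have h2 := hc 1
        rw [Subgroup.coe_one, lin_one] at h2
        have h4 : (c 1 - 1) • (e : E) = 0 := by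
          rw [sub_smul, ← h2, one_smul, sub_self]
        exact sub_eq_zero.1 ((smul_eq_zero.1 h4).resolve_right he1)
      · have h2 := hc (a * b)
        have h5 : lin hol (a : Γ) (c b • (e : E)) = c b • lin hol (a : Γ) (e : E) := by
          simp only [lin, map_smul]
        rw [Subgroup.coe_mul, lin_mul, hc b, h5, hc a, smul_smul] at h2
        have h4 : (c (a * b) - c a * c b) • (e : E) = 0 := by
          rw [sub_smul, ← h2, mul_comm, sub_self]
        exact sub_eq_zero.1 ((smul_eq_zero.1 h4).resolve_right he1)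
    intro γ hγ w hw
    have h2 := char_one χ γ hγ
    rw [hχ] at h2
    obtain ⟨t, ht⟩ := he ⟨w, hw⟩
    have ht' : w = t • (e : E) := (congrArg Subtype.val ht).symm
    have h5 : lin hol (γ : Γ) (t • (e : E)) = t • lin hol (γ : Γ) (e : E) := by
      simp only [lin, map_smul]
    rw [ht', h5, hc, h2, one_smul]
  have hq : finrank ℝ (E ⧸ W) = 2 := by
    have := W.finrank_quotient_add_finrank
    omega
  refine solv_of_ker hol H (1 + 2 + 2) (unip hol H W (1 + 2) ?_ ?_)
  · intro γ hγ v
    rw [← ds_map] at hγ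
    obtain ⟨n, hn, rfl⟩ := hγ
    exact line_triv D hdev W hq (H.subtype.comp (derivedSeries H 1).subtype)
      (fun n w hw => hfix _ n.2 w hw) (fun n => det_one hol H _ n.2) n hn v
  · intro γ hγ w hw
    exact hfix γ (derivedSeries_antitone _ (by omega) hγ) w hw

/-- a plane in a space of dimension three: the affine action on the quotient line is metabelian -/
theorem solv_mod (H : Subgroup Γ) (h3 : finrank ℝ E = 3) (W : Submodule ℝ E)
    (hW2 : finrank ℝ W = 2) (hinv : ∀ γ ∈ H, ∀ v ∈ W, (hol γ).linear v ∈ W) :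
    ∀ γ ∈ derivedSeries H 2, ∀ v : E, hol (γ : Γ) v - v ∈ W := by
  have hq : finrank ℝ (E ⧸ W) = 1 := by
    have := W.finrank_quotient_add_finrank
    omega
  obtain ⟨e', he0, he⟩ := finrank_eq_one_iff'.1 hq
  obtain ⟨e, rfl⟩ := W.mkQ_surjective e'
  have heW : e ∉ W := by
    intro h
    apply he0
    rwa [Submodule.mkQ_apply, Submodule.Quotient.mk_eq_zero]
  have hdec : ∀ v : E, ∃ c : ℝ, v - c • e ∈ W := by
    intro v
    obtain ⟨c, hc⟩ := he (W.mkQ v)
    refine ⟨c, ?_⟩
    rw [← Submodule.Quotient.eq, Submodule.Quotient.mk_smul]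
    exact hc.symm
  have huniq : ∀ c : ℝ, c • e ∈ W → c = 0 := by
    intro c hc
    by_contra h0
    apply heW
    have := W.smul_mem c⁻¹ hc
    rwa [smul_smul, inv_mul_cancel₀ h0, one_smul] at this
  have h1 : ∀ γ : H, ∃ c : ℝ, lin hol (γ : Γ) e - c • e ∈ W := fun γ => hdec _
  choose c hc using h1
  obtain ⟨χ, hχ⟩ : ∃ χ : H →* ℝ, ∀ γ, χ γ = c γ := by
    refine ⟨{ toFun := c
              map_one' := ?_
              map_mul' := fun a b => ?_ }, fun γ => rfl⟩
    · have h2 := hc 1
      rw [Subgroup.coe_one, lin_one] at h2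
      have h4 : (1 - c 1) • e ∈ W := by
        rw [sub_smul, one_smul]
        exact h2
      have := huniq _ h4
      linarith
    · have h2 := hc (a * b)
      have h5 := hinv a a.2 _ (hc b)
      have h6 : lin hol (a : Γ) (lin hol (b : Γ) e - c b • e) =
          lin hol ((a * b : H) : Γ) e - c b • lin hol (a : Γ) e := by
        rw [Subgroup.coe_mul, lin_mul]
        simp only [lin, map_sub, map_smul]
      have h7 : lin hol ((a * b : H) : Γ) e - c b • lin hol (a : Γ) e ∈ W := by
        rw [← h6]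
        exact h5
      have h8 : (c a * c b - c (a * b)) • e ∈ W := by
        have h9 := W.sub_mem h2 (W.add_mem h7 (W.smul_mem (c b) (hc a)))
        have e1 : lin hol ((a * b : H) : Γ) e - c (a * b) • e -
            (lin hol ((a * b : H) : Γ) e - c b • lin hol (a : Γ) e +
              c b • (lin hol (a : Γ) e - c a • e)) = (c a * c b - c (a * b)) • e := by
          module
        rwa [e1] at h9
      have := huniq _ h8
      linarith
  have hlin : ∀ γ ∈ derivedSeries H 1, ∀ v, lin hol (γ : Γ) v - v ∈ W := by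
    intro γ hγ v
    have h2 := char_one χ γ hγ
    rw [hχ] at h2
    obtain ⟨t, ht⟩ := hdec v
    have h4 := hinv γ γ.2 _ ht
    have h5 := hc γ
    rw [h2, one_smul] at h5
    have h6 : lin hol (γ : Γ) (v - t • e) ∈ W := h4
    have h7 : lin hol (γ : Γ) (v - t • e) = lin hol (γ : Γ) v - t • lin hol (γ : Γ) e := by
      simp only [lin, map_sub, map_smul]
    rw [h7] at h6
    have h8 := W.sub_mem (W.add_mem h6 (W.smul_mem t h5)) ht
    have e1 : lin hol (γ : Γ) v - t • lin hol (γ : Γ) e + t • (lin hol (γ : Γ) e - e) -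
        (v - t • e) = lin hol (γ : Γ) v - v := by
      module
    rwa [e1] at h8
  -- the second derived subgroup
  obtain ⟨P, hP⟩ : ∃ P : Subgroup H, ∀ γ, γ ∈ P ↔ ∀ v : E, hol (γ : Γ) v - v ∈ W := by
    refine ⟨{ carrier := {γ | ∀ v : E, hol (γ : Γ) v - v ∈ W}, mul_mem' := ?_, one_mem' := ?_,
              inv_mem' := ?_ }, fun γ => Iff.rfl⟩
    · intro a b ha hb v
      have h1 := W.add_mem (ha (hol (b : Γ) v)) (hb v)
      have e1 : hol ((a * b : H) : Γ) v = hol (a : Γ) (hol (b : Γ) v) := by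
        rw [Subgroup.coe_mul, map_mul]
        rfl
      rw [e1]
      have e2 : hol (a : Γ) (hol (b : Γ) v) - hol (b : Γ) v + (hol (b : Γ) v - v) =
          hol (a : Γ) (hol (b : Γ) v) - v := by abel
      rwa [e2] at h1
    · intro v
      rw [Subgroup.coe_one, map_one]
      show v - v ∈ W
      rw [sub_self]
      exact W.zero_mem
    · intro a ha v
      have h1 := W.neg_mem (ha (hol (a : Γ)⁻¹ v))
      rw [hol_apply_inv, neg_sub] at h1
      rw [Subgroup.coe_inv]
      exact h1
  have hle : derivedSeries H 2 ≤ P := by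
    rw [derivedSeries_succ, Subgroup.commutator_le]
    intro a ha b hb
    rw [hP]
    -- `a b` and `b a` agree modulo `W`
    have hswap : ∀ v : E, hol (a : Γ) (hol (b : Γ) v) - hol (b : Γ) (hol (a : Γ) v) ∈ W := by
      intro v
      have e0 : ∀ (γ : Γ) (p : E), hol γ p = hol γ 0 + lin hol γ p := fun γ p => by
        rw [← hol_add, zero_add]
      have a1 : hol (a : Γ) (hol (b : Γ) v) - hol (b : Γ) v - hol (a : Γ) 0 ∈ W := by
        rw [e0 (a : Γ) (hol (b : Γ) v)]
        have h1 := hlin a ha (hol (b : Γ) v)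
        have e1 : hol (a : Γ) 0 + lin hol (a : Γ) (hol (b : Γ) v) - hol (b : Γ) v - hol (a : Γ) 0 =
          lin hol (a : Γ) (hol (b : Γ) v) - hol (b : Γ) v := by abel
        rwa [e1]
      have a2 : hol (b : Γ) (hol (a : Γ) v) - hol (a : Γ) v - hol (b : Γ) 0 ∈ W := by
        rw [e0 (b : Γ) (hol (a : Γ) v)]
        have h1 := hlin b hb (hol (a : Γ) v)
        have e1 : hol (b : Γ) 0 + lin hol (b : Γ) (hol (a : Γ) v) - hol (a : Γ) v - hol (b : Γ) 0 =
          lin hol (b : Γ) (hol (a : Γ) v) - hol (a : Γ) v := by abel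
        rwa [e1]
      have a3 : hol (b : Γ) v - v - hol (b : Γ) 0 ∈ W := by
        rw [e0 (b : Γ) v]
        have h1 := hlin b hb v
        have e1 : hol (b : Γ) 0 + lin hol (b : Γ) v - v - hol (b : Γ) 0 =
          lin hol (b : Γ) v - v := by abel
        rwa [e1]
      have a4 : hol (a : Γ) v - v - hol (a : Γ) 0 ∈ W := by
        rw [e0 (a : Γ) v]
        have h1 := hlin a ha v
        have e1 : hol (a : Γ) 0 + lin hol (a : Γ) v - v - hol (a : Γ) 0 =
          lin hol (a : Γ) v - v := by abel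
        rwa [e1]
      have h1 := W.sub_mem (W.add_mem a1 a3) (W.add_mem a2 a4)
      have e1 : hol (a : Γ) (hol (b : Γ) v) - hol (b : Γ) v - hol (a : Γ) 0 +
          (hol (b : Γ) v - v - hol (b : Γ) 0) - (hol (b : Γ) (hol (a : Γ) v) - hol (a : Γ) v -
            hol (b : Γ) 0 + (hol (a : Γ) v - v - hol (a : Γ) 0)) =
          hol (a : Γ) (hol (b : Γ) v) - hol (b : Γ) (hol (a : Γ) v) := by abel
      rwa [e1] at h1
    intro v
    obtain ⟨p, hp⟩ : ∃ p : E, v = hol (b : Γ) (hol (a : Γ) p) :=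
      ⟨hol (a : Γ)⁻¹ (hol (b : Γ)⁻¹ v), by rw [hol_apply_inv, hol_apply_inv]⟩
    have e1 : hol ((⁅a, b⁆ : H) : Γ) v = hol (a : Γ) (hol (b : Γ) p) := by
      rw [hp, commutatorElement_def, Subgroup.coe_mul, Subgroup.coe_mul, Subgroup.coe_mul,
        map_mul, map_mul, map_mul]
      show hol (a : Γ) (hol (b : Γ) (hol ((a⁻¹ : H) : Γ) (hol ((b⁻¹ : H) : Γ) _))) = _
      rw [Subgroup.coe_inv, Subgroup.coe_inv, hol_inv_apply, hol_inv_apply]
    rw [e1, hp]
    exact hswap p
  exact fun γ hγ => (hP γ).1 (hle hγ)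

end

end Pool.Agent.H817.SV
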