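import Pool.Agent.H817.SV.Core

/-!
Groups of affine maps trivial modulo a plane.
-/

set_option autoImplicit false

namespace Pool.Agent.H817.SV

open Set Filter Topology Module
open Pool.Agent.W689.Mk

section
variable {E : Type} [NormedAddCommGroup E] [NormedSpace ℝ E] [FiniteDimensional ℝ E]

omit [FiniteDimensional ℝ E] in
theorem aff_add (T : E ≃ᵃ[ℝ] E) (p v : E) : T (p + v) = T p + T.linear v := by
  have := T.map_vadd p v
  rw [vadd_eq_add, vadd_eq_add, add_comm v p] at this
  rw [this, add_comm]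

theorem cont_cr {Y : Type*} [TopologicalSpace Y] {u v : Y → ℝ × ℝ} (hu : Continuous u)
    (hv : Continuous v) : Continuous fun y => cr (u y) (v y) := by
  unfold cr
  fun_prop

theorem cr_sub_left (u u' v : ℝ × ℝ) : cr (u - u') v = cr u v - cr u' v := by
  simp only [cr, Prod.fst_sub, Prod.snd_sub]; ring

theorem cr_sub_right (u v v' : ℝ × ℝ) : cr u (v - v') = cr u v - cr u v' := by
  simp only [cr, Prod.fst_sub, Prod.snd_sub]; ring

theorem HM.l1 {A : SL2} {r s : ℝ × ℝ} {l : ℝ} (h : HM A r s l) : l - 1 ≠ 0 := by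
  intro h1
  have h2 := h.big
  have h3 : l = 1 := by linarith
  rw [h3, abs_one] at h2
  exact lt_irrefl _ h2

theorem HM.l2 {A : SL2} {r s : ℝ × ℝ} {l : ℝ} (h : HM A r s l) : l⁻¹ - 1 ≠ 0 := by
  intro h1
  apply h.l1
  have h3 : l⁻¹ = 1 := by linarith
  rw [inv_eq_one.1 h3, sub_self]

theorem mkHA (T : E ≃ᵃ[ℝ] E) (W : Submodule ℝ E) (φ : W ≃ₗ[ℝ] (ℝ × ℝ)) (hT : ∀ q, T q - q ∈ W)
    (hinv : ∀ w ∈ W, T.linear w ∈ W) (A : SL2)
    (hA : ∀ w : W, φ ⟨T.linear w, hinv w w.2⟩ = act A (φ w)) {r s : ℝ × ℝ} {l : ℝ}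
    (h : HM A r s l) : ∃ a b : E → ℝ, HA T (φ.symm r : E) (φ.symm s : E) l a b ∧ Continuous b ∧
      ∀ (p q : E) (t : ℝ), b (p + t • (q - p)) = b p + t * (b q - b p) := by
  obtain ⟨w, hw⟩ : ∃ w : E → ℝ × ℝ, ∀ q, w q = φ ⟨T q - q, hT q⟩ := ⟨_, fun q => rfl⟩
  have hw1 : ∀ (q : E) (v : W), w (q + v) = w q + (act A (φ v) - φ v) := by
    intro q v
    rw [hw, hw, ← hA, ← map_sub, ← map_add]
    congr 1
    refine Subtype.ext ?_
    show T (q + v) - (q + v) = (T q - q) + (T.linear v - v)
    rw [aff_add]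
    abel
  have hw2 : ∀ (p q : E) (t : ℝ), w (p + t • (q - p)) = w p + t • (w q - w p) := by
    intro p q t
    rw [hw, hw, hw, ← map_sub, ← map_smul, ← map_add]
    congr 1
    refine Subtype.ext ?_
    show T (p + t • (q - p)) - (p + t • (q - p)) = (T p - p) + t • ((T q - q) - (T p - p))
    have h1 : T.linear (q - p) = T q - T p := by
      have := aff_add T p (q - p)
      rw [add_sub_cancel] at this
      rw [this]
      abel
    rw [aff_add, map_smul, h1]
    module
  have hwc : Continuous w := by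
    have h1 : Continuous fun q => (⟨T q - q, hT q⟩ : W) :=
      Continuous.subtype_mk
        ((T.toAffineMap.continuous_of_finiteDimensional).sub continuous_id) _
    have h2 : Continuous φ := φ.toLinearMap.continuous_of_finiteDimensional
    have h3 : w = fun q => φ ⟨T q - q, hT q⟩ := funext hw
    rw [h3]
    exact h2.comp h1
  have hw3 : ∀ (q : E) (t u : ℝ), w (q + t • (φ.symm r : E) + u • (φ.symm s : E)) =
      w q + ((l - 1) * t) • r + ((l⁻¹ - 1) * u) • s := by
    intro q t u
    have e1 : q + t • (φ.symm r : E) + u • (φ.symm s : E) =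
        q + ((t • φ.symm r + u • φ.symm s : W) : E) := by
      rw [Submodule.coe_add, Submodule.coe_smul, Submodule.coe_smul, add_assoc]
    rw [e1, hw1, map_add, map_smul, map_smul, φ.apply_symm_apply, φ.apply_symm_apply, act_add,
      act_smul, act_smul, h.er, h.es]
    module
  refine ⟨fun q => cr (w q) s / cr r s / (l - 1), fun q => cr r (w q) / cr r s / (l⁻¹ - 1),
    ⟨h.big, fun q => ?_, fun q t u => ?_, fun q t u => ?_⟩, ?_, fun p q t => ?_⟩
  · rw [mul_div_cancel₀ _ h.l1, mul_div_cancel₀ _ h.l2]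
    have e1 := cramer h.ind (w q)
    have e2 : φ.symm (w q) = (cr (w q) s / cr r s) • φ.symm r + (cr r (w q) / cr r s) • φ.symm s := by
      nth_rewrite 1 [e1]
      rw [map_add, map_smul, map_smul]
    nth_rewrite 1 [hw] at e2
    rw [φ.symm_apply_apply] at e2
    have e3 := congrArg Subtype.val e2
    have e4 : T q - q = (cr (w q) s / cr r s) • (φ.symm r : E) +
        (cr r (w q) / cr r s) • (φ.symm s : E) := e3
    rw [add_assoc, ← e4]
    abel
  · rw [hw3, cr_add_left, cr_add_left, cr_smul_left, cr_smul_left, cr_self, mul_zero, add_zero]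
    have h1 := h.l1
    have h2 := h.ind
    field_simp
  · rw [hw3, cr_add_right, cr_add_right, cr_smul_right, cr_smul_right, cr_self, mul_zero, add_zero]
    have h1 := h.l2
    have h2 := h.ind
    obtain ⟨k, hk⟩ : ∃ k, k = l⁻¹ - 1 := ⟨_, rfl⟩
    rw [← hk] at h1 ⊢
    field_simp
  · exact ((cont_cr continuous_const hwc).div_const _).div_const _
  · simp only
    rw [hw2, cr_add_right, cr_smul_right, cr_sub_right]
    ring

end

section
variable {X Γ E : Type} [TopologicalSpace X] [T2Space X] [SecondCountableTopology X]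
  [ConnectedSpace X] [Group Γ] [MulAction Γ X] [NormedAddCommGroup E] [NormedSpace ℝ E]
  [FiniteDimensional ℝ E] {dev : X → E} {hol : Γ →* (E ≃ᵃ[ℝ] E)}

omit [FiniteDimensional ℝ E] in
theorem lin_one (v : E) : lin hol (1 : Γ) v = v := by
  simp only [lin, map_one]
  rfl

theorem plane_triv (D : AffData X Γ E dev hol) (hinj : Function.Injective dev)
    (W : Submodule ℝ E) (hW2 : finrank ℝ W = 2) {N : Type*} [Group N] (ι : N →* Γ)
    (hN : ∀ n q, hol (ι n) q - q ∈ W)
    (hdet : ∀ n, LinearMap.det ((hol (ι n)).linear : E →ₗ[ℝ] E) = 1) :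
    ∀ n ∈ derivedSeries N 2, ∀ w ∈ W, lin hol (ι n) w = w := by
  have hlin : ∀ n v, lin hol (ι n) v - v ∈ W := by
    intro n v
    have h1 : lin hol (ι n) v - v = (hol (ι n) v - v) - (hol (ι n) 0 - 0) := by
      have h2 : hol (ι n) v = hol (ι n) 0 + lin hol (ι n) v := by
        rw [← hol_add, zero_add]
      rw [h2]
      abel
    rw [h1]
    exact W.sub_mem (hN n v) (hN n 0)
  have hinv : ∀ n, ∀ w ∈ W, lin hol (ι n) w ∈ W := by
    intro n w hw
    have h1 := W.add_mem (hlin n w) hw
    rwa [sub_add_cancel] at h1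
  obtain ⟨ρ, hρ⟩ : ∃ ρ : N →* (W →ₗ[ℝ] W), ∀ n,
      ρ n = ((hol (ι n)).linear : E →ₗ[ℝ] E).restrict (hinv n) := by
    refine ⟨{ toFun := fun n => ((hol (ι n)).linear : E →ₗ[ℝ] E).restrict (hinv n)
              map_one' := ?_
              map_mul' := fun a b => ?_ }, fun n => rfl⟩
    · refine LinearMap.ext fun w => Subtype.ext ?_
      show lin hol (ι 1) w = w
      rw [map_one, lin_one]
    · refine LinearMap.ext fun w => Subtype.ext ?_
      show lin hol (ι (a * b)) w = lin hol (ι a) (lin hol (ι b) w)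
      rw [map_mul, lin_mul]
  have hd : ∀ n, LinearMap.det (ρ n) = 1 := by
    intro n
    have h1 := LinearMap.det_eq_det_mul_det W ((hol (ι n)).linear : E →ₗ[ℝ] E) (hinv n)
    have h2 : W.mapQ W ((hol (ι n)).linear : E →ₗ[ℝ] E) (hinv n) = LinearMap.id := by
      refine LinearMap.ext fun v => ?_
      obtain ⟨v, rfl⟩ := W.mkQ_surjective v
      rw [Submodule.mkQ_apply, Submodule.mapQ_apply, LinearMap.id_apply]
      exact (Submodule.Quotient.eq W).2 (hlin n v)
    rw [h2, LinearMap.det_id, mul_one, hdet, ← hρ] at h1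
    exact h1.symm
  obtain ⟨M, φ, hφ⟩ := exists_rep hW2 ρ hd
  have hφ' : ∀ (n : N) (w : W), φ ⟨(hol (ι n)).linear w, hinv n w w.2⟩ = act (M n) (φ w) := by
    intro n w
    rw [← hφ, hρ]
    rfl
  rcases dichotomy M with ⟨g, f, r, s, l, r', s', l', hg, hf, h1, h2, h3, h4⟩ | h
  · exfalso
    obtain ⟨a, b, hab, hbc, hba⟩ := mkHA (hol (ι g)) W φ (hN g) (hinv g) (M g) (hφ' g) hg
    obtain ⟨a', b', hab', -, -⟩ := mkHA (hol (ι f)) W φ (hN f) (hinv f) (M f) (hφ' f) hf
    have hr' := cramer hg.ind r'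
    have hs := cramer hf.ind s
    have e1 : (φ.symm r' : E) = (cr r' s / cr r s) • (φ.symm r : E) +
        (cr r r' / cr r s) • (φ.symm s : E) := by
      have := congrArg (fun v => ((φ.symm v : W) : E)) hr'
      simp only [map_add, map_smul, Submodule.coe_add, Submodule.coe_smul] at this
      exact this
    have e2 : (φ.symm s : E) = (cr s s' / cr r' s') • (φ.symm r' : E) +
        (cr r' s / cr r' s') • (φ.symm s' : E) := by
      have := congrArg (fun v => ((φ.symm v : W) : E)) hs
      simp only [map_add, map_smul, Submodule.coe_add, Submodule.coe_smul] at this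
      exact this
    refine core D hinj hab hab' hbc hba e1 e2 (div_ne_zero ?_ hg.ind) (div_ne_zero h4 hf.ind)
    rw [cr_swap]
    exact neg_ne_zero.2 h3
  · intro n hn w hw
    have h1 := hφ' n ⟨w, hw⟩
    rw [h n hn, act_one] at h1
    exact congrArg Subtype.val (φ.injective h1)

end

end Pool.Agent.H817.SV
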