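import Mathlib

/-!
Subgroups of `SL(2, ℝ)`: two independent hyperbolic elements or metabelian.
-/

set_option autoImplicit false

open Matrix

namespace Pool.Agent.H817.SV

/-- `SL(2, ℝ)` -/
abbrev SL2 : Type := SpecialLinearGroup (Fin 2) ℝ

/-- the action on the plane -/
def act (A : SL2) (v : ℝ × ℝ) : ℝ × ℝ :=
  (A.1 0 0 * v.1 + A.1 0 1 * v.2, A.1 1 0 * v.1 + A.1 1 1 * v.2)

/-- the area form -/
def cr (u v : ℝ × ℝ) : ℝ := u.1 * v.2 - u.2 * v.1

/-- the trace -/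
def tc (A : SL2) : ℝ := A.1 0 0 + A.1 1 1

theorem dt1 (A : SL2) : A.1 0 0 * A.1 1 1 - A.1 0 1 * A.1 1 0 = 1 := by
  have h := A.2
  rwa [det_fin_two] at h

theorem m00 (A B : SL2) : (A * B).1 0 0 = A.1 0 0 * B.1 0 0 + A.1 0 1 * B.1 1 0 := by
  simp [mul_apply, Fin.sum_univ_two]

theorem m01 (A B : SL2) : (A * B).1 0 1 = A.1 0 0 * B.1 0 1 + A.1 0 1 * B.1 1 1 := by
  simp [mul_apply, Fin.sum_univ_two]

theorem m10 (A B : SL2) : (A * B).1 1 0 = A.1 1 0 * B.1 0 0 + A.1 1 1 * B.1 1 0 := by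
  simp [mul_apply, Fin.sum_univ_two]

theorem m11 (A B : SL2) : (A * B).1 1 1 = A.1 1 0 * B.1 0 1 + A.1 1 1 * B.1 1 1 := by
  simp [mul_apply, Fin.sum_univ_two]

theorem i00 (A : SL2) : (A⁻¹).1 0 0 = A.1 1 1 := by
  rw [SpecialLinearGroup.SL2_inv_expl]; rfl

theorem i01 (A : SL2) : (A⁻¹).1 0 1 = -A.1 0 1 := by
  rw [SpecialLinearGroup.SL2_inv_expl]; rfl

theorem i10 (A : SL2) : (A⁻¹).1 1 0 = -A.1 1 0 := by
  rw [SpecialLinearGroup.SL2_inv_expl]; rfl

theorem i11 (A : SL2) : (A⁻¹).1 1 1 = A.1 0 0 := by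
  rw [SpecialLinearGroup.SL2_inv_expl]; rfl

theorem o00 : (1 : SL2).1 0 0 = 1 := rfl
theorem o01 : (1 : SL2).1 0 1 = 0 := rfl
theorem o10 : (1 : SL2).1 1 0 = 0 := rfl
theorem o11 : (1 : SL2).1 1 1 = 1 := rfl

theorem ext2 {A B : SL2} (h1 : A.1 0 0 = B.1 0 0) (h2 : A.1 0 1 = B.1 0 1)
    (h3 : A.1 1 0 = B.1 1 0) (h4 : A.1 1 1 = B.1 1 1) : A = B := by
  refine Subtype.ext (Matrix.ext fun i j => ?_)
  fin_cases i <;> fin_cases j
  · exact h1
  · exact h2
  · exact h3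
  · exact h4

theorem act_mul (A B : SL2) (v : ℝ × ℝ) : act (A * B) v = act A (act B v) := by
  simp only [act, m00, m01, m10, m11]
  ext1 <;> simp only <;> ring

theorem act_one (v : ℝ × ℝ) : act 1 v = v := by
  simp only [act, o00, o01, o10, o11]
  ext1 <;> simp

theorem act_smul (A : SL2) (t : ℝ) (v : ℝ × ℝ) : act A (t • v) = t • act A v := by
  simp only [act, Prod.smul_fst, Prod.smul_snd, smul_eq_mul]
  ext1 <;> simp only [Prod.smul_fst, Prod.smul_snd, smul_eq_mul] <;> ring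

theorem act_add (A : SL2) (u v : ℝ × ℝ) : act A (u + v) = act A u + act A v := by
  simp only [act, Prod.fst_add, Prod.snd_add]
  ext1 <;> simp only [Prod.fst_add, Prod.snd_add] <;> ring

theorem act_inv_act (A : SL2) (v : ℝ × ℝ) : act A⁻¹ (act A v) = v := by
  rw [← act_mul, inv_mul_cancel, act_one]

theorem act_act_inv (A : SL2) (v : ℝ × ℝ) : act A (act A⁻¹ v) = v := by
  rw [← act_mul, mul_inv_cancel, act_one]

theorem cr_act (A : SL2) (u v : ℝ × ℝ) : cr (act A u) (act A v) = cr u v := by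
  have h := dt1 A
  simp only [cr, act]
  linear_combination (u.1 * v.2 - u.2 * v.1) * h

theorem cr_self (u : ℝ × ℝ) : cr u u = 0 := by simp only [cr]; ring

theorem cr_swap (u v : ℝ × ℝ) : cr u v = -cr v u := by simp only [cr]; ring

theorem cr_smul_left (t : ℝ) (u v : ℝ × ℝ) : cr (t • u) v = t * cr u v := by
  simp only [cr, Prod.smul_fst, Prod.smul_snd, smul_eq_mul]; ring

theorem cr_smul_right (t : ℝ) (u v : ℝ × ℝ) : cr u (t • v) = t * cr u v := by
  simp only [cr, Prod.smul_fst, Prod.smul_snd, smul_eq_mul]; ring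

theorem cr_add_left (u u' v : ℝ × ℝ) : cr (u + u') v = cr u v + cr u' v := by
  simp only [cr, Prod.fst_add, Prod.snd_add]; ring

theorem cr_add_right (u v v' : ℝ × ℝ) : cr u (v + v') = cr u v + cr u v' := by
  simp only [cr, Prod.fst_add, Prod.snd_add]; ring

/-- Cramer's rule -/
theorem cramer {u v : ℝ × ℝ} (h : cr u v ≠ 0) (w : ℝ × ℝ) :
    w = (cr w v / cr u v) • u + (cr u w / cr u v) • v := by
  have h' : u.1 * v.2 - u.2 * v.1 ≠ 0 := h
  ext1
  · simp only [cr, Prod.fst_add, Prod.smul_fst, smul_eq_mul]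
    rw [div_mul_eq_mul_div, div_mul_eq_mul_div, ← add_div, eq_div_iff h']
    ring
  · simp only [cr, Prod.snd_add, Prod.smul_snd, smul_eq_mul]
    rw [div_mul_eq_mul_div, div_mul_eq_mul_div, ← add_div, eq_div_iff h']
    ring

theorem par {u v : ℝ × ℝ} (hu : u ≠ 0) (h : cr v u = 0) : ∃ t : ℝ, v = t • u := by
  have h' : v.1 * u.2 - v.2 * u.1 = 0 := h
  by_cases h1 : u.1 = 0
  · have h2 : u.2 ≠ 0 := fun h2 => hu (Prod.ext h1 h2)
    refine ⟨v.2 / u.2, ?_⟩
    rw [h1, mul_zero, sub_zero] at h'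
    have h3 : v.1 = 0 := (mul_eq_zero.1 h').resolve_right h2
    ext1
    · simp [h1, h3]
    · simp only [Prod.smul_snd, smul_eq_mul]
      field_simp
  · refine ⟨v.1 / u.1, ?_⟩
    ext1
    · simp only [Prod.smul_fst, smul_eq_mul]
      field_simp
    · simp only [Prod.smul_snd, smul_eq_mul]
      field_simp
      linarith

theorem ne_zero_left {u v : ℝ × ℝ} (h : cr u v ≠ 0) : u ≠ 0 := by
  rintro rfl
  apply h
  simp [cr]

theorem ne_zero_right {u v : ℝ × ℝ} (h : cr u v ≠ 0) : v ≠ 0 := by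
  rintro rfl
  apply h
  simp [cr]

/-- equality on a basis -/
theorem eq_of_basis {A B : SL2} {u v : ℝ × ℝ} (h : cr u v ≠ 0) (h1 : act A u = act B u)
    (h2 : act A v = act B v) : A = B := by
  have h3 : ∀ w, act A w = act B w := by
    intro w
    rw [cramer h w, act_add, act_add, act_smul, act_smul, act_smul, act_smul, h1, h2]
  have h4 := h3 (1, 0)
  have h5 := h3 (0, 1)
  simp only [act, mul_one, mul_zero, add_zero, zero_add, Prod.mk.injEq] at h4 h5
  exact ext2 h4.1 h5.1 h4.2 h5.2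

/-- the hyperbolic elements with their eigenlines -/
structure HM (A : SL2) (r s : ℝ × ℝ) (l : ℝ) : Prop where
  big : 1 < |l|
  er : act A r = l • r
  es : act A s = l⁻¹ • s
  ind : cr r s ≠ 0

theorem HM.l0 {A : SL2} {r s : ℝ × ℝ} {l : ℝ} (h : HM A r s l) : l ≠ 0 := by
  rintro rfl
  have := h.big
  rw [abs_zero] at this
  linarith

theorem HM.ne {A : SL2} {r s : ℝ × ℝ} {l : ℝ} (h : HM A r s l) : l ≠ l⁻¹ := by
  intro h1
  have h2 : l * l = 1 := by
    nth_rewrite 2 [h1]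
    exact mul_inv_cancel₀ h.l0
  have h3 := h.big
  have h4 : |l| * |l| = 1 := by rw [← abs_mul, h2, abs_one]
  nlinarith

/-- only the two eigenlines are invariant -/
theorem HM.line {A : SL2} {r s : ℝ × ℝ} {l : ℝ} (h : HM A r s l) {v : ℝ × ℝ}
    (hv : cr (act A v) v = 0) : cr v r = 0 ∨ cr v s = 0 := by
  have h1 := cramer h.ind v
  obtain ⟨a, ha⟩ : ∃ a, a = cr v s / cr r s := ⟨_, rfl⟩
  obtain ⟨b, hb⟩ : ∃ b, b = cr r v / cr r s := ⟨_, rfl⟩
  rw [← ha, ← hb] at h1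
  have h2 : act A v = (a * l) • r + (b * l⁻¹) • s := by
    rw [h1, act_add, act_smul, act_smul, h.er, h.es, smul_smul, smul_smul]
  rw [h2, h1] at hv
  simp only [cr_add_left, cr_add_right, cr_smul_left, cr_smul_right, cr_self, mul_zero,
    zero_add, add_zero] at hv
  rw [cr_swap s r] at hv
  have h3 : (a * b * (l - l⁻¹)) * cr r s = 0 := by linear_combination hv
  have h4 := (mul_eq_zero.1 h3).resolve_right h.ind
  have h5 : l - l⁻¹ ≠ 0 := sub_ne_zero.2 h.ne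
  rcases mul_eq_zero.1 ((mul_eq_zero.1 h4).resolve_right h5) with h6 | h6
  · right
    rw [ha, div_eq_zero_iff] at h6
    exact h6.resolve_right h.ind
  · left
    rw [hb, div_eq_zero_iff] at h6
    rw [cr_swap, h6.resolve_right h.ind, neg_zero]

theorem HM.conj {A : SL2} {r s : ℝ × ℝ} {l : ℝ} (h : HM A r s l) (B : SL2) :
    HM (B * A * B⁻¹) (act B r) (act B s) l := by
  refine ⟨h.big, ?_, ?_, ?_⟩
  · rw [act_mul, act_mul, act_inv_act, h.er, act_smul]
  · rw [act_mul, act_mul, act_inv_act, h.es, act_smul]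
  · rw [cr_act]
    exact h.ind

theorem exists_eig (A : SL2) (l : ℝ) (h : l ^ 2 - tc A * l + 1 = 0) :
    ∃ v : ℝ × ℝ, v ≠ 0 ∧ act A v = l • v := by
  have hd := dt1 A
  have h0 : (A.1 - l • (1 : Matrix (Fin 2) (Fin 2) ℝ)).det = 0 := by
    rw [det_fin_two]
    simp only [Matrix.sub_apply, Matrix.smul_apply, Matrix.one_apply_eq, smul_eq_mul, mul_one,
      Matrix.one_apply_ne (show (0 : Fin 2) ≠ 1 by decide),
      Matrix.one_apply_ne (show (1 : Fin 2) ≠ 0 by decide), mul_zero, sub_zero]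
    have : tc A = A.1 0 0 + A.1 1 1 := rfl
    rw [this] at h
    linear_combination h + hd
  obtain ⟨v, hv, hv2⟩ := Matrix.exists_mulVec_eq_zero_iff.2 h0
  rw [Matrix.sub_mulVec, smul_mulVec, one_mulVec, sub_eq_zero] at hv2
  refine ⟨(v 0, v 1), ?_, ?_⟩
  · intro h1
    apply hv
    funext i
    fin_cases i
    · exact congrArg Prod.fst h1
    · exact congrArg Prod.snd h1
  · have h1 := congrFun hv2 0
    have h2 := congrFun hv2 1
    simp only [mulVec, dotProduct, Fin.sum_univ_two, Pi.smul_apply, smul_eq_mul] at h1 h2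
    ext1
    · exact h1
    · exact h2

theorem exists_hm (A : SL2) (h : 2 < |tc A|) : ∃ r s l, HM A r s l := by
  obtain ⟨l, hl, hbig⟩ : ∃ l : ℝ, l ^ 2 - tc A * l + 1 = 0 ∧ 1 < |l| := by
    have hsq : 4 < tc A ^ 2 := by
      rw [← sq_abs]
      nlinarith
    obtain ⟨t, ht⟩ : ∃ t, t = √(tc A ^ 2 - 4) := ⟨_, rfl⟩
    have ht0 : 0 ≤ t := ht ▸ Real.sqrt_nonneg _
    have ht2 : t ^ 2 = tc A ^ 2 - 4 := by
      rw [ht, Real.sq_sqrt (by linarith)]
    rcases le_total 0 (tc A) with h0 | h0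
    · rw [abs_of_nonneg h0] at h
      refine ⟨(tc A + t) / 2, by linear_combination ht2 / 4, ?_⟩
      rw [abs_of_nonneg (by linarith)]
      linarith
    · rw [abs_of_nonpos h0] at h
      refine ⟨(tc A - t) / 2, by linear_combination ht2 / 4, ?_⟩
      rw [abs_of_nonpos (by linarith)]
      linarith
  have hl0 : l ≠ 0 := by
    rintro rfl
    rw [abs_zero] at hbig
    linarith
  have hinv : l⁻¹ ^ 2 - tc A * l⁻¹ + 1 = 0 := by
    field_simp
    linear_combination hl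
  obtain ⟨r, hr, hr2⟩ := exists_eig A l hl
  obtain ⟨s, hs, hs2⟩ := exists_eig A l⁻¹ hinv
  refine ⟨r, s, l, hbig, hr2, hs2, ?_⟩
  intro h0
  obtain ⟨t, rfl⟩ := par hs h0
  have ht : t ≠ 0 := by
    rintro rfl
    exact hr (zero_smul _ _)
  rw [act_smul, hs2, smul_smul, smul_smul] at hr2
  have h3 : (t * l⁻¹ - l * t) • s = 0 := by rw [sub_smul, hr2, sub_self]
  rcases smul_eq_zero.1 h3 with h4 | h4
  · have h5 : l = l⁻¹ := by
      have : t * (l⁻¹ - l) = 0 := by linear_combination h4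
      have := (mul_eq_zero.1 this).resolve_left ht
      linarith
    have h6 : l * l = 1 := by
      nth_rewrite 2 [h5]
      exact mul_inv_cancel₀ hl0
    have h7 : |l| * |l| = 1 := by rw [← abs_mul, h6, abs_one]
    nlinarith
  · exact hs h4

/-- elements with an eigenvector of eigenvalue one have trace two -/
theorem tc_of_fix {A : SL2} {p : ℝ × ℝ} (hp : p ≠ 0) (h : act A p = p) : tc A = 2 := by
  have hd := dt1 A
  have h1 : A.1 0 0 * p.1 + A.1 0 1 * p.2 = p.1 := congrArg Prod.fst h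
  have h2 : A.1 1 0 * p.1 + A.1 1 1 * p.2 = p.2 := congrArg Prod.snd h
  have e1 : (2 - A.1 0 0 - A.1 1 1) * p.1 = 0 := by
    linear_combination (-p.1) * hd + (A.1 1 1 - 1) * h1 - A.1 0 1 * h2
  have e2 : (2 - A.1 0 0 - A.1 1 1) * p.2 = 0 := by
    linear_combination (-p.2) * hd + (A.1 0 0 - 1) * h2 - A.1 1 0 * h1
  by_contra hne
  have h3 : 2 - A.1 0 0 - A.1 1 1 ≠ 0 := fun h3 => hne (by
    show A.1 0 0 + A.1 1 1 = 2
    linarith)
  exact hp (Prod.ext ((mul_eq_zero.1 e1).resolve_left h3) ((mul_eq_zero.1 e2).resolve_left h3))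

/-- two elements fixing the same vector commute -/
theorem comm_of_fix {A B : SL2} {p : ℝ × ℝ} (hp : p ≠ 0) (hA : act A p = p) (hB : act B p = p) :
    A * B = B * A := by
  obtain ⟨q, hq⟩ : ∃ q : ℝ × ℝ, cr p q ≠ 0 := by
    refine ⟨(-p.2, p.1), ?_⟩
    simp only [cr]
    intro h0
    have h1 : p.1 * p.1 + p.2 * p.2 = 0 := by linear_combination h0
    have h2 : p.1 = 0 := by nlinarith [mul_self_nonneg p.1, mul_self_nonneg p.2]
    have h3 : p.2 = 0 := by nlinarith [mul_self_nonneg p.1, mul_self_nonneg p.2]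
    exact hp (Prod.ext h2 h3)
  have hform : ∀ {C : SL2}, act C p = p → ∃ t : ℝ, act C q = q + t • p := by
    intro C hC
    have h1 := cramer hq (act C q)
    have h2 : cr p (act C q) = cr p q := by
      nth_rewrite 1 [← hC]
      exact cr_act C p q
    rw [h2, div_self hq, one_smul] at h1
    exact ⟨_, h1.trans (add_comm _ _)⟩
  obtain ⟨a, ha⟩ := hform hA
  obtain ⟨b, hb⟩ := hform hB
  refine eq_of_basis hq ?_ ?_
  · rw [act_mul, act_mul, hA, hB, hA]
  · rw [act_mul, act_mul, hb, ha, act_add, act_add, act_smul, act_smul, ha, hb, hA, hB]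
    abel

/-- elliptic elements -/
theorem comm_of_elliptic {A B : SL2} (hA : tc A ^ 2 < 4) (h : tc (A * B * A⁻¹ * B⁻¹) ≤ 2) :
    A * B = B * A := by
  have hdA := dt1 A
  have hdB := dt1 B
  obtain ⟨a, ha⟩ : ∃ a, a = A.1 0 0 := ⟨_, rfl⟩
  obtain ⟨b, hb⟩ : ∃ b, b = A.1 0 1 := ⟨_, rfl⟩
  obtain ⟨c, hc⟩ : ∃ c, c = A.1 1 0 := ⟨_, rfl⟩
  obtain ⟨d, hd⟩ : ∃ d, d = A.1 1 1 := ⟨_, rfl⟩
  obtain ⟨e, he⟩ : ∃ e, e = B.1 0 0 := ⟨_, rfl⟩
  obtain ⟨f, hf⟩ : ∃ f, f = B.1 0 1 := ⟨_, rfl⟩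
  obtain ⟨g, hg⟩ : ∃ g, g = B.1 1 0 := ⟨_, rfl⟩
  obtain ⟨k, hk⟩ : ∃ k, k = B.1 1 1 := ⟨_, rfl⟩
  have htA : (a + d) ^ 2 < 4 := by rw [ha, hd]; exact hA
  rw [← ha, ← hb, ← hc, ← hd] at hdA
  rw [← he, ← hf, ← hg, ← hk] at hdB
  simp only [tc, m00, m01, m10, m11, i00, i01, i10, i11, ← ha, ← hb, ← hc, ← hd, ← he, ← hf, ← hg,
    ← hk] at h
  -- the commutator `A B - B A = [[c1, c2], [c3, -c1]]`
  obtain ⟨c1, hc1⟩ : ∃ c1, c1 = b * g - f * c := ⟨_, rfl⟩
  obtain ⟨c2, hc2⟩ : ∃ c2, c2 = a * f + b * k - e * b - f * d := ⟨_, rfl⟩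
  obtain ⟨c3, hc3⟩ : ∃ c3, c3 = c * e + d * g - g * a - k * c := ⟨_, rfl⟩
  have hdetC : c1 ^ 2 + c2 * c3 ≤ 0 := by
    have e1 : c1 ^ 2 + c2 * c3 = ((a * e + b * g) * d + (a * f + b * k) * -c) * k +
        ((a * e + b * g) * -b + (a * f + b * k) * a) * -g +
        (((c * e + d * g) * d + (c * f + d * k) * -c) * -f +
        ((c * e + d * g) * -b + (c * f + d * k) * a) * e) - 2 := by
      rw [hc1, hc2, hc3]
      linear_combination (-2 : ℝ) * hdA * (e * k - f * g) - 2 * hdB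
    linarith
  obtain ⟨k1, hk1⟩ : ∃ k1, k1 = (a - d) / 2 := ⟨_, rfl⟩
  have hδ : 0 < -(b * c) - k1 ^ 2 := by
    have : -(b * c) - k1 ^ 2 = (4 - (a + d) ^ 2) / 4 := by
      rw [hk1]
      linear_combination hdA
    rw [this]
    linarith
  have hb0 : b ≠ 0 := by
    rintro rfl
    nlinarith [sq_nonneg k1]
  have horth : 2 * k1 * c1 + b * c3 + c * c2 = 0 := by
    rw [hk1, hc1, hc2, hc3]
    ring
  have hkey : b ^ 2 * (c1 ^ 2 + c2 * c3) = (b * c1 - k1 * c2) ^ 2 +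
      (-(b * c) - k1 ^ 2) * c2 ^ 2 := by
    linear_combination (b * c2) * horth
  have h1 : (b * c1 - k1 * c2) ^ 2 + (-(b * c) - k1 ^ 2) * c2 ^ 2 ≤ 0 := by
    rw [← hkey]
    exact mul_nonpos_of_nonneg_of_nonpos (sq_nonneg b) hdetC
  have h2 : c2 = 0 := by
    by_contra hne
    have : 0 < c2 ^ 2 := by positivity
    nlinarith [sq_nonneg (b * c1 - k1 * c2), mul_pos hδ this]
  have h3 : c1 = 0 := by
    rw [h2] at h1
    have h4 : (b * c1) ^ 2 ≤ 0 := by nlinarith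
    have h5 : b * c1 = 0 := by nlinarith [sq_nonneg (b * c1)]
    exact (mul_eq_zero.1 h5).resolve_left hb0
  have h4 : c3 = 0 := by
    rw [h2, h3] at horth
    have : b * c3 = 0 := by linarith
    exact (mul_eq_zero.1 this).resolve_left hb0
  refine ext2 ?_ ?_ ?_ ?_
  · rw [m00, m00, ← ha, ← hb, ← hc, ← he, ← hf, ← hg]
    linarith
  · rw [m01, m01, ← ha, ← hb, ← hd, ← he, ← hf, ← hk]
    linarith
  · rw [m10, m10, ← ha, ← hc, ← hd, ← he, ← hg, ← hk]
    linarith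
  · rw [m11, m11, ← hb, ← hc, ← hd, ← hf, ← hg, ← hk]
    linarith

end Pool.Agent.H817.SV
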